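import Pool.Agent.H793Z.Hig.Ext

/-! Point counts over a finite field: the third moment of a count on pencils of binary
quadratic forms depends on whether the characteristic is two. -/

set_option autoImplicit false

namespace Pool.Agent.H793Z.Hig

open Finset

variable {K : Type} [Field K] [Fintype K]

lemma sum_const' {α : Type*} [Fintype α] (c : ℤ) : ∑ _a : α, c = Fintype.card α * c := by simp

lemma sum_I_eq1 {α : Type*} [Fintype α] (a₀ : α) : ∑ a, I (a = a₀) = 1 := by
  simpa using sum_I_eq a₀ (fun _ => 1)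

lemma sum_I_ne {α : Type*} [Fintype α] (a₀ : α) : ∑ a, I (a ≠ a₀) = Fintype.card α - 1 := by
  simp only [I_not, Finset.sum_sub_distrib, sum_I_eq1]; simp

lemma q_pos : (0 : ℤ) < Fintype.card K := by exact_mod_cast Fintype.card_pos

lemma fiber_count {A : Type} [Fintype A] [AddCommGroup A] [Module K A] (f : A → K) (a₀ : A)
    (h : ∀ a c, f (a + c • a₀) = f a + c) (t : K) :
    (Fintype.card K : ℤ) * ∑ a, I (f a = t) = Fintype.card A := by
  have h1 : ∀ t', ∑ a, I (f a = t') = ∑ a, I (f a = t) := by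
    intro t'
    refine Fintype.sum_equiv (Equiv.addRight ((t - t') • a₀)) _ _ fun a => I_congr ?_
    simp only [Equiv.coe_addRight, h]
    constructor
    · intro e; rw [e]; ring
    · intro e; linear_combination e
  have h2 : ∑ t', ∑ a, I (f a = t') = Fintype.card A := by
    rw [Finset.sum_comm]
    have : ∀ a, ∑ t', I (f a = t') = 1 := by
      intro a
      simp_rw [eq_comm (a := f a)]
      exact sum_I_eq1 _
    simp [this]
  rw [← h2]
  simp_rw [h1]
  simp

lemma lin2 (x y t : K) (h : ¬ (x = 0 ∧ y = 0)) :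
    ∑ p : K × K, I (x * p.1 + y * p.2 = t) = Fintype.card K := by
  have : ∃ a₀ : K × K, x * a₀.1 + y * a₀.2 = 1 := by
    by_cases hx : x = 0
    · have hy : y ≠ 0 := fun hy => h ⟨hx, hy⟩
      exact ⟨(0, y⁻¹), by simp [hy]⟩
    · exact ⟨(x⁻¹, 0), by simp [hx]⟩
  obtain ⟨a₀, ha⟩ := this
  have := fiber_count (K := K) (fun p : K × K => x * p.1 + y * p.2) a₀
    (fun a c => by simp; linear_combination c * ha) t
  apply mul_left_cancel₀ (q_pos (K := K)).ne'
  rw [this]; simp

lemma lin3 (x y z t : K) (h : ¬ (x = 0 ∧ y = 0 ∧ z = 0)) :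
    ∑ p : K × K × K, I (x * p.1 + y * p.2.1 + z * p.2.2 = t) = (Fintype.card K : ℤ) ^ 2 := by
  have : ∃ a₀ : K × K × K, x * a₀.1 + y * a₀.2.1 + z * a₀.2.2 = 1 := by
    by_cases hx : x = 0
    · by_cases hy : y = 0
      · have hz : z ≠ 0 := fun hz => h ⟨hx, hy, hz⟩
        exact ⟨(0, 0, z⁻¹), by simp [hz]⟩
      · exact ⟨(0, y⁻¹, 0), by simp [hy]⟩
    · exact ⟨(x⁻¹, 0, 0), by simp [hx]⟩
  obtain ⟨a₀, ha⟩ := this
  have := fiber_count (K := K) (fun p : K × K × K => x * p.1 + y * p.2.1 + z * p.2.2) a₀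
    (fun a c => by simp; linear_combination c * ha) t
  apply mul_left_cancel₀ (q_pos (K := K)).ne'
  rw [this]; simp; ring

lemma lin4 (x y z w t : K) (h : ¬ (x = 0 ∧ y = 0 ∧ z = 0 ∧ w = 0)) :
    ∑ p : (K × K) × (K × K), I (x * p.1.1 + y * p.1.2 + z * p.2.1 + w * p.2.2 = t) =
      (Fintype.card K : ℤ) ^ 3 := by
  have : ∃ a₀ : (K × K) × (K × K),
      x * a₀.1.1 + y * a₀.1.2 + z * a₀.2.1 + w * a₀.2.2 = 1 := by
    by_cases hx : x = 0
    · by_cases hy : y = 0
      · by_cases hz : z = 0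
        · have hw : w ≠ 0 := fun hw => h ⟨hx, hy, hz, hw⟩
          exact ⟨((0, 0), (0, w⁻¹)), by simp [hw]⟩
        · exact ⟨((0, 0), (z⁻¹, 0)), by simp [hz]⟩
      · exact ⟨((0, y⁻¹), (0, 0)), by simp [hy]⟩
    · exact ⟨((x⁻¹, 0), (0, 0)), by simp [hx]⟩
  obtain ⟨a₀, ha⟩ := this
  have := fiber_count (K := K)
    (fun p : (K × K) × (K × K) => x * p.1.1 + y * p.1.2 + z * p.2.1 + w * p.2.2) a₀
    (fun a c => by simp; linear_combination c * ha) t
  apply mul_left_cancel₀ (q_pos (K := K)).ne'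
  rw [this]; simp; ring

lemma both2 (x y x' y' : K) (h : ¬ (x = 0 ∧ y = 0)) :
    ∑ p : K × K, I (x * p.1 + y * p.2 = 0 ∧ x' * p.1 + y' * p.2 = 0) =
      1 + ((Fintype.card K : ℤ) - 1) * I (x * y' - y * x' = 0) := by
  by_cases hd : x * y' - y * x' = 0
  · rw [I_pos hd]
    have : ∀ p : K × K, (x * p.1 + y * p.2 = 0 ∧ x' * p.1 + y' * p.2 = 0) ↔
        x * p.1 + y * p.2 = 0 := by
      intro p
      refine ⟨fun e => e.1, fun e => ⟨e, ?_⟩⟩
      by_cases hx : x = 0
      · have hy : y ≠ 0 := fun hy => h ⟨hx, hy⟩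
        apply mul_left_cancel₀ hy
        linear_combination y' * e - p.1 * hd
      · apply mul_left_cancel₀ hx
        linear_combination x' * e + p.2 * hd
    simp_rw [this]
    rw [lin2 x y 0 h]; ring
  · rw [I_neg hd]
    have : ∀ p : K × K, (x * p.1 + y * p.2 = 0 ∧ x' * p.1 + y' * p.2 = 0) ↔ p = 0 := by
      intro p
      constructor
      · rintro ⟨e1, e2⟩
        refine Prod.ext ?_ ?_
        · apply mul_left_cancel₀ hd
          simp only [Prod.fst_zero]
          linear_combination y' * e1 - y * e2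
        · apply mul_left_cancel₀ hd
          simp only [Prod.snd_zero]
          linear_combination x * e2 - x' * e1
      · rintro rfl; simp
    simp_rw [this]
    rw [sum_I_eq1]; ring

lemma I_mul_zero (a b : K) : I (a * b = 0) = I (a = 0) + I (b = 0) - I (a = 0 ∧ b = 0) := by
  by_cases ha : a = 0 <;> by_cases hb : b = 0 <;> simp [I, ha, hb]

lemma two_forms (x y x' y' : K) (h : ¬ (x = 0 ∧ y = 0)) (h' : ¬ (x' = 0 ∧ y' = 0)) :
    ∑ p : K × K, I ((x * p.1 + y * p.2) * (x' * p.1 + y' * p.2) = 0) =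
      2 * (Fintype.card K : ℤ) - 1 - ((Fintype.card K : ℤ) - 1) * I (x * y' - y * x' = 0) := by
  simp_rw [I_mul_zero]
  rw [Finset.sum_sub_distrib, Finset.sum_add_distrib, lin2 x y 0 h, lin2 x' y' 0 h',
    both2 x y x' y' h]
  ring

def dot (F φ : K × K × K) : K := F.1 * φ.1 + F.2.1 * φ.2.1 + F.2.2 * φ.2.2

def crs (F G : K × K × K) : K × K × K :=
  (F.2.1 * G.2.2 - F.2.2 * G.2.1, F.2.2 * G.1 - F.1 * G.2.2, F.1 * G.2.1 - F.2.1 * G.1)

lemma cross_sum (F G : K × K × K) (h : crs F G ≠ 0) (w : K × K × K → ℤ) :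
    ∑ φ, I (dot F φ = 0 ∧ dot G φ = 0) * w φ = ∑ t : K, w (t • crs F G) := by
  have := sum_I_inj (fun t : K => t • crs F G) (smul_left_injective K h)
    (fun φ => dot F φ = 0 ∧ dot G φ = 0) (fun _ => True) ?_ w
  · rw [this]; simp [I_pos]
  · obtain ⟨f1, f2, f3⟩ := F
    obtain ⟨g1, g2, g3⟩ := G
    rintro ⟨a, b, c⟩
    simp only [dot, crs, true_and, Prod.smul_mk, smul_eq_mul, Prod.mk.injEq]
    constructor
    · rintro ⟨e1, e2⟩
      by_cases h1 : f2 * g3 - f3 * g2 = 0
      · by_cases h2 : f3 * g1 - f1 * g3 = 0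
        · have h3 : f1 * g2 - f2 * g1 ≠ 0 := by
            intro h3; apply h; simp [crs, h1, h2, h3]
          refine ⟨c / (f1 * g2 - f2 * g1), ?_, ?_, ?_⟩
          · field_simp; linear_combination f2 * e2 - g2 * e1
          · field_simp; linear_combination g1 * e1 - f1 * e2
          · field_simp
        · refine ⟨b / (f3 * g1 - f1 * g3), ?_, ?_, ?_⟩
          · field_simp; linear_combination g3 * e1 - f3 * e2
          · field_simp
          · field_simp; linear_combination f1 * e2 - g1 * e1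
      · refine ⟨a / (f2 * g3 - f3 * g2), ?_, ?_, ?_⟩
        · field_simp
        · field_simp; linear_combination f3 * e2 - g3 * e1
        · field_simp; linear_combination g2 * e1 - f2 * e2
    · rintro ⟨t, rfl, rfl, rfl⟩
      constructor <;> ring

lemma sum_mul_zero (c : K) :
    ∑ t : K, I (t * c = 0) = 1 + ((Fintype.card K : ℤ) - 1) * I (c = 0) := by
  by_cases hc : c = 0
  · simp [hc, I_pos]
  · simp only [mul_eq_zero, hc, or_false, I_neg hc, sum_I_eq1]; simp [I]

end Pool.Agent.H793Z.Hig
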