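import Mathlib

/-! Extensions of commuting pairs of endomorphisms along a split inclusion, and the weight of a leaf. -/

set_option autoImplicit false

namespace Pool.Agent.H793Z.Hig

open Finset

universe u v w

/-- integer indicator of a proposition -/
noncomputable def I (p : Prop) : ℤ := by classical exact if p then 1 else 0

lemma I_pos {p : Prop} (h : p) : I p = 1 := by simp [I, h]
lemma I_neg {p : Prop} (h : ¬ p) : I p = 0 := by simp [I, h]
lemma I_congr {p q : Prop} (h : p ↔ q) : I p = I q := by rw [propext h]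
lemma I_and (p q : Prop) : I (p ∧ q) = I p * I q := by
  by_cases hp : p <;> by_cases hq : q <;> simp [I, hp, hq]
lemma I_not (p : Prop) : I (¬ p) = 1 - I p := by
  by_cases hp : p <;> simp [I, hp]
lemma I_forall {ι : Type*} [Fintype ι] (p : ι → Prop) : I (∀ i, p i) = ∏ i, I (p i) := by
  by_cases h : ∀ i, p i
  · rw [I_pos h]; exact (Finset.prod_eq_one fun i _ => I_pos (h i)).symm
  · rw [I_neg h]
    obtain ⟨i, hi⟩ := not_forall.mp h
    exact (Finset.prod_eq_zero (Finset.mem_univ i) (I_neg hi)).symm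
lemma I_mul_congr {p : Prop} {x y : ℤ} (h : p → x = y) : I p * x = I p * y := by
  by_cases hp : p
  · rw [h hp]
  · simp [I_neg hp]
lemma I_mul_modEq {p : Prop} {x y n : ℤ} (h : p → x ≡ y [ZMOD n]) : I p * x ≡ I p * y [ZMOD n] := by
  by_cases hp : p
  · exact (h hp).mul_left _
  · simp [I_neg hp]
lemma I_mul_dvd {p : Prop} {x n : ℤ} (h : p → n ∣ x) : n ∣ I p * x := by
  by_cases hp : p
  · exact (h hp).mul_left _
  · simp [I_neg hp]

lemma sum_I {α : Type*} [Fintype α] (p : α → Prop) : ∑ a, I (p a) = (Nat.card {a // p a} : ℤ) := by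
  classical
  rw [Nat.card_eq_fintype_card, Fintype.card_subtype, Finset.card_filter]
  push_cast
  refine Finset.sum_congr rfl fun a _ => ?_
  by_cases h : p a <;> simp [I, h]

lemma sum_I_eq {α : Type*} [Fintype α] (a₀ : α) (w : α → ℤ) : ∑ a, I (a = a₀) * w a = w a₀ := by
  classical
  rw [Finset.sum_eq_single a₀]
  · simp [I_pos]
  · intro b _ hb; simp [I_neg hb]
  · simp

lemma sum_modEq {α : Type*} [Fintype α] {f g : α → ℤ} {n : ℤ} (h : ∀ a, f a ≡ g a [ZMOD n]) :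
    ∑ a, f a ≡ ∑ a, g a [ZMOD n] := by
  apply Int.ModEq.symm
  rw [Int.modEq_iff_dvd, ← Finset.sum_sub_distrib]
  exact Finset.dvd_sum fun a _ => (Int.modEq_iff_dvd.mp (h a).symm)

/-- reindex a sum restricted to the image of an injection -/
lemma sum_I_inj {α β : Type*} [Fintype α] [Fintype β] (f : α → β) (hf : Function.Injective f)
    (p : β → Prop) (q : α → Prop) (h : ∀ b, p b ↔ ∃ a, q a ∧ f a = b) (w : β → ℤ) :
    ∑ b, I (p b) * w b = ∑ a, I (q a) * w (f a) := by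
  have h1 : ∀ b, I (p b) * w b = ∑ a, I (b = f a) * (I (q a) * w b) := by
    intro b
    by_cases hb : p b
    · obtain ⟨a, ha, rfl⟩ := (h _).mp hb
      rw [I_pos hb]
      have : ∀ a', I (f a = f a') = I (a' = a) := fun a' =>
        I_congr ⟨fun e => (hf e).symm, fun e => by rw [e]⟩
      simp_rw [this]
      rw [sum_I_eq a (fun a' => I (q a') * w (f a)), I_pos ha]
    · rw [I_neg hb, zero_mul]
      symm
      refine Finset.sum_eq_zero fun a _ => ?_
      by_cases e : b = f a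
      · rw [I_neg (fun hq => hb ((h b).mpr ⟨a, hq, e.symm⟩))]; simp
      · rw [I_neg e]; simp
  simp_rw [h1]
  rw [Finset.sum_comm]
  refine Finset.sum_congr rfl fun a _ => ?_
  exact sum_I_eq (f a) (fun b => I (q a) * w b)

variable {K : Type} [Field K]

/-- pairs of endomorphisms -/
abbrev EP (K : Type) [Field K] (M : Type u) [AddCommGroup M] [Module K M] :=
  (M →ₗ[K] M) × (M →ₗ[K] M)

noncomputable instance fintLin {M : Type u} {N : Type v} [AddCommGroup M] [Module K M]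
    [AddCommGroup N] [Module K N] [Finite M] [Finite N] : Fintype (M →ₗ[K] N) :=
  @Fintype.ofFinite _ (Finite.of_injective _ DFunLike.coe_injective)

section
variable {M : Type u} {M' : Type v} [AddCommGroup M] [Module K M] [AddCommGroup M'] [Module K M']

def Comm (θ : EP K M) : Prop := θ.1 ∘ₗ θ.2 = θ.2 ∘ₗ θ.1

/-- `θ'` is a commuting pair on `M'` which restricts to `θ` along `ι` and has image in that of `ι` -/
def ExtI (ι : M →ₗ[K] M') (θ : EP K M) (θ' : EP K M') : Prop :=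
  θ'.1 ∘ₗ ι = ι ∘ₗ θ.1 ∧ θ'.2 ∘ₗ ι = ι ∘ₗ θ.2 ∧ LinearMap.range θ'.1 ≤ LinearMap.range ι ∧
    LinearMap.range θ'.2 ≤ LinearMap.range ι ∧ Comm θ'

/-- transport of pairs along a linear equivalence -/
def cj (φ : M ≃ₗ[K] M') : EP K M ≃ EP K M' :=
  φ.conj.toEquiv.prodCongr φ.conj.toEquiv

lemma cj_fst (φ : M ≃ₗ[K] M') (θ : EP K M) (x : M) : (cj φ θ).1 (φ x) = φ (θ.1 x) := by
  simp [cj, LinearEquiv.conj_apply]
lemma cj_snd (φ : M ≃ₗ[K] M') (θ : EP K M) (x : M) : (cj φ θ).2 (φ x) = φ (θ.2 x) := by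
  simp [cj, LinearEquiv.conj_apply]
end

section
variable {M : Type u} {M' : Type v} [AddCommGroup M] [Module K M] [AddCommGroup M'] [Module K M']
  {N : Type} {N' : Type} [AddCommGroup N] [Module K N] [AddCommGroup N'] [Module K N']

lemma aux_comp (ι : M →ₗ[K] M') (ι' : N →ₗ[K] N') (φ : M ≃ₗ[K] N) (φ' : M' ≃ₗ[K] N')
    (h : ∀ x, φ' (ι x) = ι' (φ x)) (f : M →ₗ[K] M) (f' : M' →ₗ[K] M') (g : N →ₗ[K] N)
    (g' : N' →ₗ[K] N') (hf : ∀ x, g (φ x) = φ (f x)) (hf' : ∀ x, g' (φ' x) = φ' (f' x)) :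
    f' ∘ₗ ι = ι ∘ₗ f ↔ g' ∘ₗ ι' = ι' ∘ₗ g := by
  constructor
  · intro e
    ext y
    obtain ⟨x, rfl⟩ := φ.surjective y
    have := LinearMap.congr_fun e x
    simp only [LinearMap.comp_apply] at this ⊢
    rw [← h, hf', this, h, hf]
  · intro e
    ext x
    have := LinearMap.congr_fun e (φ x)
    simp only [LinearMap.comp_apply] at this ⊢
    apply φ'.injective
    rw [← hf', h, this, h, hf]

lemma aux_range (ι : M →ₗ[K] M') (ι' : N →ₗ[K] N') (φ : M ≃ₗ[K] N) (φ' : M' ≃ₗ[K] N')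
    (h : ∀ x, φ' (ι x) = ι' (φ x)) (f' : M' →ₗ[K] M')
    (g' : N' →ₗ[K] N') (hf' : ∀ x, g' (φ' x) = φ' (f' x)) :
    LinearMap.range f' ≤ LinearMap.range ι ↔ LinearMap.range g' ≤ LinearMap.range ι' := by
  constructor
  · rintro e _ ⟨y, rfl⟩
    obtain ⟨x, rfl⟩ := φ'.surjective y
    obtain ⟨z, hz⟩ := e ⟨x, rfl⟩
    exact ⟨φ z, by rw [← h, hz, hf']⟩
  · rintro e _ ⟨x, rfl⟩
    obtain ⟨z, hz⟩ := e ⟨φ' x, rfl⟩
    obtain ⟨z, rfl⟩ := φ.surjective z
    exact ⟨z, φ'.injective (by rw [h, hz, hf'])⟩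

lemma comm_cj (φ' : M' ≃ₗ[K] N') (θ' : EP K M') : Comm θ' ↔ Comm (cj φ' θ') :=
  aux_comp θ'.2 (cj φ' θ').2 φ' φ' (fun x => (cj_snd φ' θ' x).symm) θ'.1 θ'.1 _ _
    (cj_fst φ' θ') (cj_fst φ' θ')

lemma extI_cj (ι : M →ₗ[K] M') (ι' : N →ₗ[K] N') (φ : M ≃ₗ[K] N) (φ' : M' ≃ₗ[K] N')
    (h : ∀ x, φ' (ι x) = ι' (φ x)) (θ : EP K M) (θ' : EP K M') :
    ExtI ι θ θ' ↔ ExtI ι' (cj φ θ) (cj φ' θ') := by
  unfold ExtI
  rw [aux_comp ι ι' φ φ' h θ.1 θ'.1 _ _ (cj_fst φ θ) (cj_fst φ' θ'),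
    aux_comp ι ι' φ φ' h θ.2 θ'.2 _ _ (cj_snd φ θ) (cj_snd φ' θ'),
    aux_range ι ι' φ φ' h θ'.1 _ (cj_fst φ' θ'), aux_range ι ι' φ φ' h θ'.2 _ (cj_snd φ' θ'),
    comm_cj φ' θ']
end

section
variable {M G : Type} [AddCommGroup M] [Module K M] [AddCommGroup G] [Module K G]

def ext (θ : EP K M) (U V : G →ₗ[K] M) : EP K (M × G) :=
  (LinearMap.inl K M G ∘ₗ θ.1.coprod U, LinearMap.inl K M G ∘ₗ θ.2.coprod V)

@[simp] lemma ext_fst (θ : EP K M) (U V : G →ₗ[K] M) (x : M × G) :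
    (ext θ U V).1 x = (θ.1 x.1 + U x.2, 0) := by simp [ext]
@[simp] lemma ext_snd (θ : EP K M) (U V : G →ₗ[K] M) (x : M × G) :
    (ext θ U V).2 x = (θ.2 x.1 + V x.2, 0) := by simp [ext]

lemma comm_ext (θ : EP K M) (hθ : Comm θ) (U V : G →ₗ[K] M) :
    Comm (ext θ U V) ↔ θ.1 ∘ₗ V = θ.2 ∘ₗ U := by
  have h0 : ∀ x, θ.1 (θ.2 x) = θ.2 (θ.1 x) := fun x => LinearMap.congr_fun hθ x
  constructor
  · intro h
    ext g
    have := LinearMap.congr_fun h (0, g)
    simpa using this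
  · intro h
    apply LinearMap.ext
    intro x
    have := LinearMap.congr_fun h x.2
    simp only [LinearMap.comp_apply] at this
    simp [h0, this]

lemma extI_inl (θ : EP K M) (hθ : Comm θ) (θ' : EP K (M × G)) :
    ExtI (LinearMap.inl K M G) θ θ' ↔
      ∃ UV : (G →ₗ[K] M) × (G →ₗ[K] M), θ.1 ∘ₗ UV.2 = θ.2 ∘ₗ UV.1 ∧ ext θ UV.1 UV.2 = θ' := by
  constructor
  · rintro ⟨h1, h2, h3, h4, h5⟩
    have key : ∀ (f : M →ₗ[K] M) (f' : M × G →ₗ[K] M × G),
        f' ∘ₗ LinearMap.inl K M G = LinearMap.inl K M G ∘ₗ f →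
        LinearMap.range f' ≤ LinearMap.range (LinearMap.inl K M G) →
        LinearMap.inl K M G ∘ₗ f.coprod (LinearMap.fst K M G ∘ₗ f' ∘ₗ LinearMap.inr K M G) = f' := by
      intro f f' a b
      apply LinearMap.ext
      rintro ⟨x, g⟩
      have a' := LinearMap.congr_fun a x
      obtain ⟨y, hy⟩ := b ⟨(0, g), rfl⟩
      have : (x, g) = (x, (0 : G)) + ((0 : M), g) := by simp
      simp only [LinearMap.comp_apply, LinearMap.inl_apply, LinearMap.coprod_apply,
        LinearMap.inr_apply, LinearMap.fst_apply] at a' hy ⊢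
      rw [this, map_add, a', ← hy]
      simp
    have e : ext θ (LinearMap.fst K M G ∘ₗ θ'.1 ∘ₗ LinearMap.inr K M G)
        (LinearMap.fst K M G ∘ₗ θ'.2 ∘ₗ LinearMap.inr K M G) = θ' :=
      Prod.ext (key _ _ h1 h3) (key _ _ h2 h4)
    refine ⟨(_, _), ?_, e⟩
    rw [← e] at h5
    exact (comm_ext θ hθ _ _).mp h5
  · rintro ⟨UV, h, rfl⟩
    refine ⟨?_, ?_, ?_, ?_, (comm_ext θ hθ _ _).mpr h⟩
    · ext x <;> simp
    · ext x <;> simp
    · rintro _ ⟨x, rfl⟩; exact ⟨θ.1 x.1 + UV.1 x.2, by simp⟩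
    · rintro _ ⟨x, rfl⟩; exact ⟨θ.2 x.1 + UV.2 x.2, by simp⟩

lemma ext_inj (θ : EP K M) :
    Function.Injective (fun UV : (G →ₗ[K] M) × (G →ₗ[K] M) => ext θ UV.1 UV.2) := by
  intro a b h
  have h1 := congrArg Prod.fst h
  have h2 := congrArg Prod.snd h
  refine Prod.ext ?_ ?_
  · ext g; simpa using LinearMap.congr_fun h1 (0, g)
  · ext g; simpa using LinearMap.congr_fun h2 (0, g)

variable [Finite M] [Finite G]

variable (G) in
/-- weighted count of the extensions of `θ` to `M × G` -/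
noncomputable def S (w : EP K (M × G) → ℤ) (θ : EP K M) : ℤ :=
  ∑ θ' : EP K (M × G), I (ExtI (LinearMap.inl K M G) θ θ') * w θ'

lemma S_eq (θ : EP K M) (hθ : Comm θ) (w : EP K (M × G) → ℤ) :
    S G w θ = ∑ UV : (G →ₗ[K] M) × (G →ₗ[K] M),
      I (θ.1 ∘ₗ UV.2 = θ.2 ∘ₗ UV.1) * w (ext θ UV.1 UV.2) :=
  sum_I_inj _ (ext_inj θ) _ _ (extI_inl θ hθ) w
end

section
variable {M : Type} [AddCommGroup M] [Module K M]

def ext1 (θ : EP K M) (u v : M) : EP K (M × K) :=
  ext θ (LinearMap.toSpanSingleton K M u) (LinearMap.toSpanSingleton K M v)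

@[simp] lemma ext1_fst (θ : EP K M) (u v : M) (x : M × K) :
    (ext1 θ u v).1 x = (θ.1 x.1 + x.2 • u, 0) := by simp [ext1]
@[simp] lemma ext1_snd (θ : EP K M) (u v : M) (x : M × K) :
    (ext1 θ u v).2 x = (θ.2 x.1 + x.2 • v, 0) := by simp [ext1]

lemma valid1 (θ : EP K M) (u v : M) :
    θ.1 ∘ₗ LinearMap.toSpanSingleton K M v = θ.2 ∘ₗ LinearMap.toSpanSingleton K M u ↔
      θ.1 v = θ.2 u := by
  constructor
  · intro h; simpa using LinearMap.congr_fun h 1
  · intro h; ext; simpa using h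

lemma comm_ext1 (θ : EP K M) (hθ : Comm θ) (u v : M) (h : θ.1 v = θ.2 u) :
    Comm (ext1 θ u v) := (comm_ext θ hθ _ _).mpr ((valid1 θ u v).mpr h)

variable [Fintype K] [Fintype M]

lemma S1_eq (θ : EP K M) (hθ : Comm θ) (w : EP K (M × K) → ℤ) :
    S K w θ = ∑ uv : M × M, I (θ.1 uv.2 = θ.2 uv.1) * w (ext1 θ uv.1 uv.2) := by
  rw [S_eq θ hθ]
  symm
  let e : M ≃ (K →ₗ[K] M) := (LinearMap.ringLmapEquivSelf K K M).symm.toEquiv
  have he : ∀ u, e u = LinearMap.toSpanSingleton K M u := by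
    intro u; ext; simp [e]
  refine Fintype.sum_equiv (e.prodCongr e) _ _ fun uv => ?_
  simp only [Equiv.prodCongr_apply, Prod.map_fst, Prod.map_snd, he, valid1, ext1]

lemma leaf_eq (θ : EP K M) (hθ : Comm θ) (m : ℕ) :
    S (Fin m → K) (fun _ => 1) θ = (∑ uv : M × M, I (θ.1 uv.2 = θ.2 uv.1)) ^ m := by
  classical
  rw [S_eq θ hθ, Fintype.sum_pow]
  let e : ((Fin m → K) →ₗ[K] M) ≃ (Fin m → M) := (LinearEquiv.piRing K M (Fin m) K).toEquiv
  refine Fintype.sum_equiv ((e.prodCongr e).trans (Equiv.arrowProdEquivProdArrow _ _ _).symm) _ _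
    fun UV => ?_
  rw [mul_one, ← I_forall]
  apply I_congr
  constructor
  · intro h i
    simpa [e] using LinearMap.congr_fun h (Pi.single i 1)
  · intro h
    apply LinearMap.pi_ext'
    intro i
    ext
    simpa [e] using h i

/-- the images of the pair together with `u, v` span `M` -/
def Gen (θ : EP K M) (u v : M) : Prop :=
  ∀ x : M, ∃ a b : M, ∃ s t : K, θ.1 a + s • u + (θ.2 b + t • v) = x

/-- the map whose kernel is counted at a leaf -/
def Lm (θ : EP K M) (u v : M) : (M × K) × (M × K) →ₗ[K] M :=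
  (-(θ.2.coprod (LinearMap.toSpanSingleton K M v))).coprod
    (θ.1.coprod (LinearMap.toSpanSingleton K M u))

/-- defect of the generic condition -/
noncomputable def cc (θ : EP K M) (u v : M) : ℤ := Nat.card (M ⧸ LinearMap.range (Lm θ u v))

lemma z1_eq (θ : EP K M) (u v : M) :
    ∑ ab : (M × K) × (M × K), I ((ext1 θ u v).1 ab.2 = (ext1 θ u v).2 ab.1) =
      (Fintype.card K : ℤ) ^ 2 * Fintype.card M * cc θ u v := by
  have h1 : ∀ ab : (M × K) × (M × K),
      ((ext1 θ u v).1 ab.2 = (ext1 θ u v).2 ab.1) ↔ ab ∈ LinearMap.ker (Lm θ u v) := by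
    intro ab
    simp only [ext1_fst, ext1_snd, Prod.mk.injEq, and_true, LinearMap.mem_ker, Lm,
      LinearMap.coprod_apply, LinearMap.neg_apply, LinearMap.toSpanSingleton_apply]
    constructor
    · intro h; rw [h]; simp
    · intro h; rw [neg_add_eq_zero] at h; exact h.symm
  simp_rw [h1]
  rw [sum_I]
  have h2 := Submodule.card_eq_card_quotient_mul_card (LinearMap.ker (Lm θ u v))
  have h3 := Submodule.card_eq_card_quotient_mul_card (LinearMap.range (Lm θ u v))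
  rw [Nat.card_congr (Lm θ u v).quotKerEquivRange.toEquiv] at h2
  have h4 : 0 < Nat.card (LinearMap.range (Lm θ u v)) := Nat.card_pos
  simp only [Nat.card_prod, Nat.card_eq_fintype_card (α := M), Nat.card_eq_fintype_card (α := K)]
    at h2 h3
  unfold cc
  have h5 : Nat.card (LinearMap.ker (Lm θ u v)) = Fintype.card K ^ 2 * Fintype.card M *
      Nat.card (M ⧸ LinearMap.range (Lm θ u v)) := by
    apply Nat.eq_of_mul_eq_mul_right h4
    rw [← h2]
    calc _ = Fintype.card K ^ 2 * Fintype.card M * Fintype.card M := by ring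
      _ = _ := by conv_lhs => rw [mul_assoc, mul_comm (Fintype.card M), h3]
                  rw [← h3]; ring_nf; rw [h3]; ring
  exact_mod_cast h5

lemma cc_modEq (θ : EP K M) (u v : M) (m : ℕ) :
    cc θ u v ^ m ≡ I (Gen θ u v) [ZMOD (Fintype.card K : ℤ) ^ m] := by
  have hg : Gen θ u v ↔ LinearMap.range (Lm θ u v) = ⊤ := by
    rw [LinearMap.range_eq_top]
    constructor
    · intro h x
      obtain ⟨a, b, s, t, e⟩ := h x
      refine ⟨((-b, -t), (a, s)), ?_⟩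
      simp [Lm, ← e]; abel
    · intro h x
      obtain ⟨ab, e⟩ := h x
      refine ⟨ab.2.1, -ab.1.1, ab.2.2, -ab.1.2, ?_⟩
      rw [← e]; simp [Lm]; abel
  by_cases h : Gen θ u v
  · rw [I_pos h]
    have : cc θ u v = 1 := by
      unfold cc
      rw [hg.mp h]
      simp
    rw [this, one_pow]
  · rw [I_neg h]
    apply Int.modEq_zero_iff_dvd.mpr
    apply pow_dvd_pow_of_dvd
    unfold cc
    have hn : Nontrivial (M ⧸ LinearMap.range (Lm θ u v)) :=
      Submodule.Quotient.nontrivial_iff.mpr (fun e => h (hg.mpr e))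
    have hfin : Finite (M ⧸ LinearMap.range (Lm θ u v)) := Quotient.finite _
    rw [Module.natCard_eq_pow_finrank (K := K), Nat.card_eq_fintype_card]
    push_cast
    exact dvd_pow_self _ (Module.finrank_pos (R := K)).ne'

lemma leaf1_eq (θ : EP K M) (hθ : Comm θ) (u v : M) (h : θ.1 v = θ.2 u) (m : ℕ) :
    S (Fin m → K) (fun _ => 1) (ext1 θ u v) =
      ((Fintype.card K : ℤ) ^ 2 * Fintype.card M) ^ m * cc θ u v ^ m := by
  rw [leaf_eq _ (comm_ext1 θ hθ u v h), z1_eq, mul_pow]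
end

end Pool.Agent.H793Z.Hig
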