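import Pool.Agent.H793Z.Hig.Count

/-! The count `g F` and its third moment. -/

set_option autoImplicit false
set_option linter.unusedSectionVars false

namespace Pool.Agent.H793Z.Hig

open Finset

variable {K : Type} [Field K] [Fintype K]

def ev (p : K × K) : K × K × K := (p.1 ^ 2, -(p.1 * p.2), -p.2 ^ 2)
def Fp (F : K × K × K) : K × K × K := (-F.2.2, F.2.1, F.1)
def A1 (F : K × K × K) (p : K × K) : K := F.1 * p.1 - F.2.1 * p.2
def A2 (F : K × K × K) (p : K × K) : K := F.2.2 * p.2 - F.2.1 * p.1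
def Z (F : K × K × K) (p : K × K) : Prop := A1 F p = 0 ∧ A2 F p = 0
def Qf (F : K × K × K) (p : K × K) : K := A1 F p * p.1 + A2 F p * p.2
def ND (F : K × K × K) : Prop := F.1 * F.2.2 - F.2.1 ^ 2 ≠ 0

noncomputable def hh (φ : K × K × K) : ℤ := ∑ p : K × K, I (dot (ev p) φ ≠ 0)
noncomputable def g (F : K × K × K) : ℤ := ∑ φ, I (dot (Fp F) φ = 0) * hh φ ^ 2
noncomputable def n1 (F : K × K × K) : ℤ := ∑ p : K × K, I (Qf F p = 0)

lemma ne_zero3 {F : K × K × K} (hF : F ≠ 0) : ¬ (F.1 = 0 ∧ F.2.1 = 0 ∧ F.2.2 = 0) := by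
  rintro ⟨a, b, c⟩
  exact hF (Prod.ext a (Prod.ext b c))

lemma ne_zero2 {p : K × K} (hp : p ≠ 0) : ¬ (p.1 = 0 ∧ p.2 = 0) := by
  rintro ⟨a, b⟩
  exact hp (Prod.ext a b)

lemma Z_kill {F : K × K × K} (hF : F ≠ 0) {p : K × K} (hz : Z F p) {φ : K × K × K}
    (h : dot (Fp F) φ = 0) : dot (ev p) φ = 0 := by
  obtain ⟨α, β, γ⟩ := F
  obtain ⟨s, t⟩ := p
  obtain ⟨b, D, c⟩ := φ
  obtain ⟨h1, h2⟩ := hz
  simp only [A1, A2, dot, Fp, ev] at h1 h2 h ⊢
  by_cases ha : α = 0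
  · by_cases hb : β = 0
    · have hc : γ ≠ 0 := fun hc => ne_zero3 hF ⟨ha, hb, hc⟩
      apply mul_left_cancel₀ hc
      linear_combination (-s ^ 2) * h + (-(D * s) - c * t) * h2 + (c * s) * h1
    · apply mul_left_cancel₀ hb
      linear_combination (-(s * t)) * h + (-(b * s)) * h2 + (c * t) * h1
  · apply mul_left_cancel₀ ha
    linear_combination (-t ^ 2) * h + (b * s - D * t) * h1 + (-(b * t)) * h2

lemma crs_ne {F : K × K × K} {p : K × K} (hz : ¬ Z F p) : crs (Fp F) (ev p) ≠ 0 := by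
  obtain ⟨α, β, γ⟩ := F
  obtain ⟨s, t⟩ := p
  intro h
  apply hz
  simp only [crs, Fp, ev, Prod.mk_eq_zero] at h
  obtain ⟨h1, h2, h3⟩ := h
  simp only [Z, A1, A2]
  by_cases ht : t = 0
  · by_cases hs : s = 0
    · simp [hs, ht]
    · subst ht
      constructor
      · apply mul_left_cancel₀ hs; linear_combination h2
      · apply mul_left_cancel₀ hs; linear_combination h3
  · have e1 : α * s - β * t = 0 := by
      apply mul_left_cancel₀ ht; linear_combination h1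
    refine ⟨e1, ?_⟩
    apply mul_left_cancel₀ ht; linear_combination s * e1 - h2

lemma C_eq {F : K × K × K} (hF : F ≠ 0) (p p' : K × K) :
    ∑ φ, I (dot (Fp F) φ = 0) * (I (dot (ev p) φ ≠ 0) * I (dot (ev p') φ ≠ 0)) =
      I (¬ Z F p) * (I (¬ Z F p') * (((Fintype.card K : ℤ) - 1) ^ 2 + ((Fintype.card K : ℤ) - 1) *
        I ((p.2 * p'.1 + (-p.1) * p'.2) * (A1 F p * p'.1 + A2 F p * p'.2) = 0))) := by
  by_cases hz : Z F p
  · rw [I_neg (not_not.mpr hz), zero_mul]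
    refine Finset.sum_eq_zero fun φ _ => ?_
    rw [I_mul_congr (y := 0), mul_zero]
    intro h
    rw [I_neg (not_not.mpr (Z_kill hF hz h)), zero_mul]
  by_cases hz' : Z F p'
  · rw [I_neg (not_not.mpr hz'), zero_mul, mul_zero]
    refine Finset.sum_eq_zero fun φ _ => ?_
    rw [I_mul_congr (y := 0), mul_zero]
    intro h
    rw [I_neg (not_not.mpr (Z_kill hF hz' h)), mul_zero]
  rw [I_pos hz, I_pos hz', one_mul, one_mul]
  have h1 : ∀ φ, I (dot (Fp F) φ = 0) * (I (dot (ev p) φ ≠ 0) * I (dot (ev p') φ ≠ 0)) =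
      I (dot (Fp F) φ = 0) - I (dot (Fp F) φ = 0 ∧ dot (ev p) φ = 0) * 1 -
        I (dot (Fp F) φ = 0 ∧ dot (ev p') φ = 0) * 1 +
        I (dot (Fp F) φ = 0 ∧ dot (ev p) φ = 0) * I (dot (ev p') φ = 0) := by
    intro φ
    simp only [ne_eq, I_not, I_and]; ring
  simp_rw [h1]
  rw [Finset.sum_add_distrib, Finset.sum_sub_distrib, Finset.sum_sub_distrib,
    cross_sum _ _ (crs_ne hz), cross_sum _ _ (crs_ne hz'), cross_sum _ _ (crs_ne hz)]
  have h2 : ∑ φ, I (dot (Fp F) φ = 0) = (Fintype.card K : ℤ) ^ 2 := by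
    apply lin3
    rintro ⟨a, b, c⟩
    exact ne_zero3 hF ⟨c, b, neg_eq_zero.mp a⟩
  have h3 : ∀ t : K, dot (ev p') (t • crs (Fp F) (ev p)) =
      t * ((p.2 * p'.1 + (-p.1) * p'.2) * (A1 F p * p'.1 + A2 F p * p'.2)) := by
    intro t
    simp only [dot, ev, crs, Fp, A1, A2, Prod.smul_mk, smul_eq_mul]; ring
  simp_rw [h3]
  rw [h2, sum_mul_zero]
  simp only [Finset.sum_const, Finset.card_univ, nsmul_eq_mul]
  ring

lemma g_eq {F : K × K × K} (hF : F ≠ 0) :
    g F = ∑ p : K × K, I (¬ Z F p) * ∑ p' : K × K, (I (¬ Z F p') *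
      (((Fintype.card K : ℤ) - 1) ^ 2 + ((Fintype.card K : ℤ) - 1) *
        I ((p.2 * p'.1 + (-p.1) * p'.2) * (A1 F p * p'.1 + A2 F p * p'.2) = 0))) := by
  simp_rw [Finset.mul_sum, ← C_eq hF]
  unfold g hh
  simp_rw [sq, Finset.sum_mul_sum, Finset.mul_sum]
  rw [Finset.sum_comm]
  refine Finset.sum_congr rfl fun p _ => ?_
  rw [Finset.sum_comm]

lemma ND_ne {F : K × K × K} (h : ND F) : F ≠ 0 := by
  rintro rfl
  simp [ND] at h

lemma Z_ND {F : K × K × K} (h : ND F) (p : K × K) : Z F p ↔ p = 0 := by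
  constructor
  · rintro ⟨h1, h2⟩
    simp only [A1, A2] at h1 h2
    refine Prod.ext ?_ ?_
    · apply mul_left_cancel₀ h
      simp only [Prod.fst_zero]
      linear_combination F.2.2 * h1 + F.2.1 * h2
    · apply mul_left_cancel₀ h
      simp only [Prod.snd_zero]
      linear_combination F.2.1 * h1 + F.1 * h2
  · rintro rfl; simp [Z, A1, A2]

lemma sum_ne_split {α : Type*} [Fintype α] (a₀ : α) (w : α → ℤ) :
    ∑ a, I (¬ a = a₀) * w a = ∑ a, w a - w a₀ := by
  simp only [I_not, sub_mul, one_mul, Finset.sum_sub_distrib, sum_I_eq]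

lemma g_ND {F : K × K × K} (h : ND F) :
    g F = ((Fintype.card K : ℤ) - 1) ^ 2 * ((Fintype.card K : ℤ) ^ 4 - n1 F) := by
  rw [g_eq (ND_ne h)]
  simp_rw [Z_ND h]
  have h1 : ∀ p : K × K, I (¬ p = 0) * ∑ p' : K × K, (I (¬ p' = 0) *
      (((Fintype.card K : ℤ) - 1) ^ 2 + ((Fintype.card K : ℤ) - 1) *
        I ((p.2 * p'.1 + (-p.1) * p'.2) * (A1 F p * p'.1 + A2 F p * p'.2) = 0))) =
      I (¬ p = 0) * (((Fintype.card K : ℤ) - 1) ^ 2 *
        ((Fintype.card K : ℤ) ^ 2 + 1 - I (Qf F p = 0))) := by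
    intro p
    apply I_mul_congr
    intro hp
    rw [sum_ne_split, Finset.sum_add_distrib, ← Finset.mul_sum, two_forms]
    · have : p.2 * A2 F p - -p.1 * A1 F p = Qf F p := by unfold Qf; ring
      rw [this, I_pos (p := _ * _ = 0) (by simp)]
      simp only [Finset.sum_const, Finset.card_univ, nsmul_eq_mul, Fintype.card_prod]
      push_cast; ring
    · rintro ⟨a, b⟩; exact ne_zero2 hp ⟨neg_eq_zero.mp b, a⟩
    · intro hz; exact hp ((Z_ND h p).mp hz)
  simp_rw [h1]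
  rw [sum_ne_split, ← Finset.mul_sum, Finset.sum_sub_distrib, I_pos (p := Qf F 0 = 0) (by simp [Qf])]
  simp only [Finset.sum_const, Finset.card_univ, nsmul_eq_mul, Fintype.card_prod, n1]
  push_cast; ring

lemma g_deg {F : K × K × K} (hF : F ≠ 0) (h : ¬ ND F) : (Fintype.card K : ℤ) ∣ g F := by
  have hd : F.1 * F.2.2 - F.2.1 ^ 2 = 0 := not_not.mp h
  obtain ⟨x, y, κ, hxy, hκ, e1, e2⟩ : ∃ x y κ : K, ¬ (x = 0 ∧ y = 0) ∧ κ ≠ 0 ∧
      (∀ p : K × K, A1 F p = κ * x * (x * p.1 + y * p.2)) ∧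
      (∀ p : K × K, A2 F p = κ * y * (x * p.1 + y * p.2)) := by
    by_cases ha : F.1 = 0
    · have hb : F.2.1 = 0 := by
        apply pow_eq_zero_iff (n := 2) (by norm_num) |>.mp
        linear_combination F.2.2 * ha - hd
      have hc : F.2.2 ≠ 0 := fun hc => ne_zero3 hF ⟨ha, hb, hc⟩
      exact ⟨0, 1, F.2.2, by simp, hc, fun p => by simp [A1, ha, hb], fun p => by simp [A2, hb]⟩
    · refine ⟨F.1, -F.2.1, F.1⁻¹, by simp [ha], inv_ne_zero ha, fun p => ?_, fun p => ?_⟩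
      · simp only [A1]; field_simp; ring
      · simp only [A2]; field_simp; linear_combination p.2 * hd
  have hZ : ∀ p : K × K, Z F p ↔ x * p.1 + y * p.2 = 0 := by
    intro p
    unfold Z
    rw [e1, e2]
    constructor
    · rintro ⟨a, b⟩
      by_contra hne
      exact hxy ⟨by simpa [hκ, hne] using a, by simpa [hκ, hne] using b⟩
    · intro a; simp [a]
  have hcnt : ∑ p : K × K, I (¬ Z F p) = (Fintype.card K : ℤ) ^ 2 - Fintype.card K := by
    simp_rw [hZ, I_not]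
    rw [Finset.sum_sub_distrib, lin2 x y 0 hxy]
    simp [sq]
  rw [g_eq hF]
  have h1 : ∀ p : K × K, I (¬ Z F p) * ∑ p' : K × K, (I (¬ Z F p') *
      (((Fintype.card K : ℤ) - 1) ^ 2 + ((Fintype.card K : ℤ) - 1) *
        I ((p.2 * p'.1 + (-p.1) * p'.2) * (A1 F p * p'.1 + A2 F p * p'.2) = 0))) =
      I (¬ Z F p) * (((Fintype.card K : ℤ) - 1) ^ 2 *
        ((Fintype.card K : ℤ) ^ 2 - Fintype.card K + 1)) := by
    intro p
    apply I_mul_congr
    intro hp
    rw [hZ] at hp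
    have hp0 : ¬ (p.2 = 0 ∧ -p.1 = 0) := by
      rintro ⟨a, b⟩
      apply hp
      rw [a, neg_eq_zero.mp b]; simp
    have h2 : ∀ p' : K × K, I (¬ Z F p') *
        (((Fintype.card K : ℤ) - 1) ^ 2 + ((Fintype.card K : ℤ) - 1) *
        I ((p.2 * p'.1 + (-p.1) * p'.2) * (A1 F p * p'.1 + A2 F p * p'.2) = 0)) =
        ((Fintype.card K : ℤ) - 1) ^ 2 * I (¬ Z F p') + ((Fintype.card K : ℤ) - 1) *
          (I (p.2 * p'.1 + (-p.1) * p'.2 = 0) -
            I (x * p'.1 + y * p'.2 = 0 ∧ p.2 * p'.1 + (-p.1) * p'.2 = 0)) := by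
      intro p'
      by_cases hz : Z F p'
      · rw [I_neg (not_not.mpr hz), I_and, I_pos ((hZ p').mp hz)]; ring
      · have hz2 := (hZ p').not.mp hz
        rw [I_pos hz, I_and, I_neg hz2]
        have : A1 F p * p'.1 + A2 F p * p'.2 ≠ 0 := by
          have : A1 F p * p'.1 + A2 F p * p'.2 =
              κ * (x * p.1 + y * p.2) * (x * p'.1 + y * p'.2) := by rw [e1, e2]; ring
          rw [this]
          exact mul_ne_zero (mul_ne_zero hκ hp) hz2
        rw [I_congr (mul_eq_zero_iff_right this)]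
        ring
    simp_rw [h2]
    rw [Finset.sum_add_distrib, ← Finset.mul_sum, ← Finset.mul_sum, hcnt, Finset.sum_sub_distrib,
      lin2 _ _ 0 hp0, both2 _ _ _ _ hxy, I_neg]
    · ring
    · intro e; apply hp; linear_combination -e
  simp_rw [h1]
  rw [← Finset.sum_mul, hcnt]
  apply Dvd.dvd.mul_right
  exact ⟨Fintype.card K - 1, by ring⟩

lemma n1_two (h2 : (2 : K) = 0) (F : K × K × K) : (Fintype.card K : ℤ) ∣ n1 F := by
  have hsq : Function.Surjective (fun x : K => x ^ 2) := by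
    apply Finite.injective_iff_surjective.mp
    intro x y e
    have e' : x ^ 2 = y ^ 2 := e
    have : (x - y) ^ 2 = 0 := by linear_combination e' + (y ^ 2 - x * y) * h2
    exact sub_eq_zero.mp (pow_eq_zero_iff (n := 2) (by norm_num) |>.mp this)
  obtain ⟨a, ha⟩ := hsq F.1
  obtain ⟨c, hc⟩ := hsq F.2.2
  have ha' : a ^ 2 = F.1 := ha
  have hc' : c ^ 2 = F.2.2 := hc
  have : ∀ p : K × K, Qf F p = 0 ↔ a * p.1 + c * p.2 = 0 := by
    intro p
    have : Qf F p = (a * p.1 + c * p.2) ^ 2 := by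
      simp only [Qf, A1, A2]
      linear_combination (-p.1 ^ 2) * ha' - p.2 ^ 2 * hc' - (F.2.1 + a * c) * p.1 * p.2 * h2
    rw [this, pow_eq_zero_iff (by norm_num)]
  unfold n1
  simp_rw [this]
  by_cases h : a = 0 ∧ c = 0
  · simp [h.1, h.2, I_pos]
  · rw [lin2 a c 0 h]

lemma n1_odd (h2 : (2 : K) ≠ 0) {F : K × K × K} (h : ND F) :
    n1 F = 1 ∨ n1 F = 2 * (Fintype.card K : ℤ) - 1 := by
  by_cases hex : ∃ p₀ : K × K, p₀ ≠ 0 ∧ Qf F p₀ = 0
  · right
    obtain ⟨⟨s, t⟩, hp, hq⟩ := hex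
    obtain ⟨α, β, γ⟩ := F
    simp only [Qf, A1, A2] at hq
    obtain ⟨x, y, e1, e2, e3⟩ : ∃ x y : K, α = t * x ∧ γ = -s * y ∧ 2 * β = s * x - t * y := by
      by_cases ht : t = 0
      · have hs : s ≠ 0 := fun hs => ne_zero2 hp ⟨hs, ht⟩
        subst ht
        refine ⟨2 * β / s, -γ / s, ?_, ?_, ?_⟩
        · apply mul_left_cancel₀ (pow_ne_zero 2 hs); linear_combination hq
        · field_simp
        · field_simp; ring
      · refine ⟨α / t, (s * α / t - 2 * β) / t, ?_, ?_, ?_⟩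
        · field_simp
        · field_simp; linear_combination hq
        · field_simp; ring
    have hdet : t * y - (-s) * x ≠ 0 := by
      intro e
      apply h
      simp only
      apply mul_left_cancel₀ (pow_ne_zero 2 h2)
      rw [e1, e2]
      linear_combination (-(2 * β + s * x - t * y)) * e3 - (t * y + s * x) * e
    have : ∀ p : K × K, Qf (α, β, γ) p = (t * p.1 + (-s) * p.2) * (x * p.1 + y * p.2) := by
      intro p
      simp only [Qf, A1, A2]
      linear_combination p.1 ^ 2 * e1 + p.2 ^ 2 * e2 - p.1 * p.2 * e3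
    unfold n1
    simp_rw [this]
    rw [two_forms, I_neg hdet]
    · ring
    · rintro ⟨a, b⟩; exact ne_zero2 hp ⟨neg_eq_zero.mp b, a⟩
    · rintro ⟨a, b⟩; apply hdet; simp [a, b]
  · left
    have : ∀ p : K × K, Qf F p = 0 ↔ p = 0 := by
      intro p
      constructor
      · intro e; by_contra hp; exact hex ⟨p, hp, e⟩
      · rintro rfl; simp [Qf]
    unfold n1
    simp_rw [this]
    exact sum_I_eq1 _

lemma sum_ND : ∑ F : K × K × K, I (ND F) =
    (Fintype.card K : ℤ) ^ 3 - (Fintype.card K : ℤ) ^ 2 := by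
  have : ∑ F : K × K × K, I (F.1 * F.2.2 - F.2.1 ^ 2 = 0) = (Fintype.card K : ℤ) ^ 2 := by
    rw [Fintype.sum_prod_type]
    have : ∀ α : K, ∑ y : K × K, I (α * y.2 - y.1 ^ 2 = 0) = Fintype.card K := by
      intro α
      by_cases ha : α = 0
      · have : ∀ y : K × K, α * y.2 - y.1 ^ 2 = 0 ↔ 1 * y.1 + 0 * y.2 = 0 := by
          intro y; simp [ha]
        simp_rw [this]
        exact lin2 1 0 0 (by simp)
      · rw [Fintype.sum_prod_type]
        have : ∀ b c : K, α * c - b ^ 2 = 0 ↔ c = b ^ 2 / α := by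
          intro b c
          rw [eq_div_iff ha]
          constructor <;> intro e <;> linear_combination e
        simp_rw [this, sum_I_eq1]
        simp
    simp_rw [this]
    simp [sq]
  simp only [ND, ne_eq, I_not]
  rw [Finset.sum_sub_distrib, this]
  simp; ring

lemma sum_ND_n1 : ∑ F : K × K × K, I (ND F) * (n1 F - 1) =
    ((Fintype.card K : ℤ) ^ 2 - 1) * ((Fintype.card K : ℤ) ^ 2 - Fintype.card K) := by
  have h1 : ∀ F : K × K × K, n1 F - 1 = ∑ p : K × K, I (¬ p = 0) * I (Qf F p = 0) := by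
    intro F
    rw [sum_ne_split, I_pos (p := Qf F 0 = 0) (by simp [Qf])]; rfl
  simp_rw [h1, Finset.mul_sum]
  rw [Finset.sum_comm]
  have h2 : ∀ p : K × K, ∑ F : K × K × K, I (ND F) * (I (¬ p = 0) * I (Qf F p = 0)) =
      I (¬ p = 0) * ((Fintype.card K : ℤ) ^ 2 - Fintype.card K) := by
    intro p
    simp_rw [mul_left_comm (I (ND _))]
    rw [← Finset.mul_sum]
    apply I_mul_congr
    intro hp
    have hp' := ne_zero2 hp
    have h3 : ∀ F : K × K × K, I (ND F) * I (Qf F p = 0) =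
        I (p.1 ^ 2 * F.1 + (-(2 * p.1 * p.2)) * F.2.1 + p.2 ^ 2 * F.2.2 = 0) -
          I (dot (p.1, -p.2, 0) F = 0 ∧ dot (0, -p.1, p.2) F = 0) * 1 := by
      intro F
      have e1 : Qf F p = p.1 ^ 2 * F.1 + (-(2 * p.1 * p.2)) * F.2.1 + p.2 ^ 2 * F.2.2 := by
        simp only [Qf, A1, A2]; ring
      have e2 : (dot (p.1, -p.2, 0) F = 0 ∧ dot (0, -p.1, p.2) F = 0) ↔ Z F p := by
        have a1 : dot (p.1, -p.2, 0) F = A1 F p := by simp only [dot, A1]; ring
        have a2 : dot (0, -p.1, p.2) F = A2 F p := by simp only [dot, A2]; ring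
        rw [a1, a2]; rfl
      rw [← e1, I_congr e2]
      by_cases hn : ND F
      · rw [I_pos hn, I_neg (p := Z F p) (fun hz => hp ((Z_ND hn p).mp hz))]; ring
      · rw [I_neg hn]
        have hd : F.1 * F.2.2 - F.2.1 ^ 2 = 0 := not_not.mp hn
        have : Qf F p = 0 ↔ Z F p := by
          constructor
          · intro e
            simp only [Qf, A1, A2] at e
            constructor
            · apply pow_eq_zero_iff (n := 2) (by norm_num) |>.mp
              simp only [A1]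
              linear_combination F.1 * e - p.2 ^ 2 * hd
            · apply pow_eq_zero_iff (n := 2) (by norm_num) |>.mp
              simp only [A2]
              linear_combination F.2.2 * e - p.1 ^ 2 * hd
          · rintro ⟨a, b⟩; simp [Qf, a, b]
        rw [I_congr this]; ring
    simp_rw [h3]
    rw [Finset.sum_sub_distrib, lin3, cross_sum]
    · simp
    · intro e
      simp only [crs, Prod.mk_eq_zero] at e
      apply hp'
      constructor
      · apply pow_eq_zero_iff (n := 2) (by norm_num) |>.mp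
        linear_combination -e.2.2
      · apply pow_eq_zero_iff (n := 2) (by norm_num) |>.mp
        linear_combination -e.1
    · rintro ⟨a, -, c⟩
      exact hp' ⟨pow_eq_zero_iff (n := 2) (by norm_num) |>.mp a,
        pow_eq_zero_iff (n := 2) (by norm_num) |>.mp c⟩
  simp_rw [h2]
  rw [← Finset.sum_mul, sum_I_ne]
  simp [sq]

/-- the third moment -/
noncomputable def Sg (K : Type) [Field K] [Fintype K] : ℤ :=
  ∑ F : K × K × K, I (F ≠ 0) * g F ^ 3

lemma Sg_two (h2 : (2 : K) = 0) : (Fintype.card K : ℤ) ^ 3 ∣ Sg K := by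
  refine Finset.dvd_sum fun F _ => I_mul_dvd fun hF => pow_dvd_pow_of_dvd ?_ 3
  by_cases h : ND F
  · rw [g_ND h]
    exact Dvd.dvd.mul_left (dvd_sub (dvd_pow_self _ (by norm_num)) (n1_two h2 F)) _
  · exact g_deg hF h

lemma Sg_odd (h2 : (2 : K) ≠ 0) :
    ∃ r : ℤ, Sg K = Fintype.card K * (-1 + Fintype.card K * r) := by
  set q : ℤ := (Fintype.card K : ℤ) with hq
  set W : ℤ := (q ^ 4 - 1) ^ 2 + (q ^ 4 - 1) * (q ^ 4 - 2 * q + 1) + (q ^ 4 - 2 * q + 1) ^ 2
    with hW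
  have h1 : ∀ F : K × K × K, I (F ≠ 0) * g F ^ 3 =
      (q - 1) ^ 6 * ((q ^ 4 - 1) ^ 3 * I (ND F) - W * (I (ND F) * (n1 F - 1))) +
        I (F ≠ 0 ∧ ¬ ND F) * g F ^ 3 := by
    intro F
    by_cases h : ND F
    · rw [I_pos (ND_ne h), I_pos h, I_neg (p := F ≠ 0 ∧ ¬ ND F) (fun e => e.2 h), g_ND h, ← hq]
      rcases n1_odd h2 h with e | e <;> rw [e, hW] <;> ring
    · rw [I_neg h, I_and, I_pos h]; ring
  obtain ⟨r, hr⟩ : q ^ 3 ∣ ∑ F : K × K × K, I (F ≠ 0 ∧ ¬ ND F) * g F ^ 3 :=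
    Finset.dvd_sum fun F _ => I_mul_dvd fun hF => pow_dvd_pow_of_dvd (g_deg hF.1 hF.2) 3
  unfold Sg
  simp_rw [h1]
  rw [Finset.sum_add_distrib, hr, ← Finset.mul_sum, Finset.sum_sub_distrib, ← Finset.mul_sum,
    ← Finset.mul_sum, sum_ND, sum_ND_n1, ← hq]
  have h3 : q ∣ (q - 1) ^ 6 * ((q ^ 4 - 1) ^ 3 * (q ^ 2 - q) - W * ((q ^ 2 - 1) * (q - 1))) + 1 := by
    have : ((q - 1) ^ 6 * ((q ^ 4 - 1) ^ 3 * (q ^ 2 - q) - W * ((q ^ 2 - 1) * (q - 1))) + 1 : ℤ) ≡
        (0 - 1) ^ 6 * ((0 ^ 4 - 1) ^ 3 * (0 ^ 2 - 0) -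
          ((0 ^ 4 - 1) ^ 2 + (0 ^ 4 - 1) * (0 ^ 4 - 2 * 0 + 1) + (0 ^ 4 - 2 * 0 + 1) ^ 2) *
            ((0 ^ 2 - 1) * (0 - 1))) + 1 [ZMOD q] := by
      have h0 : q ≡ 0 [ZMOD q] := Int.modEq_zero_iff_dvd.mpr dvd_rfl
      rw [hW]
      gcongr
    exact Int.modEq_zero_iff_dvd.mp (by simpa using this)
  obtain ⟨r', hr'⟩ := h3
  exact ⟨r' + q * r, by linear_combination q * hr'⟩

end Pool.Agent.H793Z.Hig
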