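import Pool.Agent.H793Z.Hig.Tower

/-! No rational polynomial interpolates the count: its order of vanishing at zero would have to be
at least `2112` (fields of characteristic two) and exactly `2111` (fields of characteristic three). -/

set_option autoImplicit false

namespace Pool.Agent.H793Z.Hig

open Polynomial

lemma eval_zero_of (p : ℕ) (hp : 1 < p) (D : ℚ[X])
    (h : ∀ k : ℕ, 1 ≤ k → ∃ r : ℤ, D.eval ((p : ℚ) ^ k) = (p : ℚ) ^ k * r) : D.eval 0 = 0 := by
  obtain ⟨b, hb, hD⟩ := IsLocalization.integerNormalization_spec (nonZeroDivisors ℤ) D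
  set D0 := IsLocalization.integerNormalization (nonZeroDivisors ℤ) D with hD0
  have hb0 : b ≠ 0 := nonZeroDivisors.ne_zero hb
  have hev : ∀ x : ℤ, ((D0.eval x : ℤ) : ℚ) = b * D.eval (x : ℚ) := by
    intro x
    have := congrArg (fun P : ℚ[X] => P.eval (x : ℚ)) hD
    simp only [zsmul_eq_mul, eval_mul, eval_intCast, Int.cast_id] at this
    rw [← this]
    simp [eval_map_algebraMap]
  have hdv : ∀ k : ℕ, 1 ≤ k → (p : ℤ) ^ k ∣ D0.eval 0 := by
    intro k hk
    obtain ⟨r, hr⟩ := h k hk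
    have h1 : D0.eval ((p : ℤ) ^ k) = (p : ℤ) ^ k * (b * r) := by
      have := hev ((p : ℤ) ^ k)
      push_cast at this
      rw [hr] at this
      have : ((D0.eval ((p : ℤ) ^ k) : ℤ) : ℚ) = (((p : ℤ) ^ k * (b * r) : ℤ) : ℚ) := by
        rw [this]; push_cast; ring
      exact_mod_cast this
    have h2 := sub_dvd_eval_sub ((p : ℤ) ^ k) 0 D0
    rw [sub_zero, h1] at h2
    exact (dvd_sub_right (Dvd.intro _ rfl)).mp h2
  have h0 : D0.eval 0 = 0 := by
    apply Int.eq_zero_of_dvd_of_natAbs_lt_natAbs (hdv ((D0.eval 0).natAbs + 1) (by omega))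
    rw [Int.natAbs_pow, Int.natAbs_natCast]
    exact lt_trans (Nat.lt_succ_self _) (Nat.lt_pow_self hp)
  have := hev 0
  rw [h0] at this
  simpa [hb0] using this

lemma X_pow_dvd_of (p : ℕ) (hp : 1 < p) (n : ℕ) : ∀ D : ℚ[X],
    (∀ k : ℕ, 1 ≤ k → ∃ r : ℤ, D.eval ((p : ℚ) ^ k) = ((p : ℚ) ^ k) ^ n * r) → X ^ n ∣ D := by
  induction n with
  | zero => intro D _; simp
  | succ n ih =>
    intro D h
    have h0 : D.eval 0 = 0 := eval_zero_of p hp D fun k hk => by
      obtain ⟨r, hr⟩ := h k hk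
      exact ⟨((p : ℤ) ^ k) ^ n * r, by rw [hr]; push_cast; ring⟩
    obtain ⟨D1, rfl⟩ : X ∣ D := by rw [X_dvd_iff, coeff_zero_eq_eval_zero]; exact h0
    rw [pow_succ']
    refine mul_dvd_mul_left _ (ih D1 fun k hk => ?_)
    obtain ⟨r, hr⟩ := h k hk
    refine ⟨r, ?_⟩
    have hne : (p : ℚ) ^ k ≠ 0 := by positivity
    apply mul_left_cancel₀ hne
    rw [eval_mul, eval_X] at hr
    rw [hr]; ring

theorem no_poly : ¬ ∃ P : ℚ[X], ∀ (K : Type) [Field K] [Fintype K],
    ((Nat.card {fg : Fam K 44 // Cnd K 44 fg} : ℕ) : ℚ) = P.eval (Fintype.card K : ℚ) := by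
  rintro ⟨P, hP⟩
  have key : ∀ (K : Type) [Field K] [Fintype K], P.eval (Fintype.card K : ℚ) = (Tot K 44 : ℤ) := by
    intro K _ _
    rw [← hP K, ← card_eq]; simp
  have h2 : X ^ 2112 ∣ P := by
    refine X_pow_dvd_of 2 (by norm_num) _ P fun k hk => ?_
    let : Fintype (GaloisField 2 k) := Fintype.ofFinite _
    have hc : Fintype.card (GaloisField 2 k) = 2 ^ k := by
      rw [← Nat.card_eq_fintype_card, GaloisField.card 2 k (by omega)]
    obtain ⟨r, hr⟩ := Tot_two (K := GaloisField 2 k) (CharP.cast_eq_zero (GaloisField 2 k) 2)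
    have := key (GaloisField 2 k)
    rw [hr, hc] at this
    exact ⟨r, by exact_mod_cast this⟩
  obtain ⟨R, hR⟩ := h2
  have : Fact (Nat.Prime 3) := ⟨Nat.prime_three⟩
  have h3 : (X * R + 1).eval 0 = 0 := by
    refine eval_zero_of 3 (by norm_num) _ fun k hk => ?_
    let : Fintype (GaloisField 3 k) := Fintype.ofFinite _
    have hc : Fintype.card (GaloisField 3 k) = 3 ^ k := by
      rw [← Nat.card_eq_fintype_card, GaloisField.card 3 k (by omega)]
    have h2 : (2 : GaloisField 3 k) ≠ 0 := by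
      intro e
      have := (CharP.cast_eq_zero_iff (GaloisField 3 k) 3 2).mp (by exact_mod_cast e)
      omega
    obtain ⟨r, hr⟩ := Tot_odd (K := GaloisField 3 k) h2
    have := key (GaloisField 3 k)
    rw [hr, hc, hR] at this
    refine ⟨r, ?_⟩
    have hne : (((3 : ℕ) : ℚ) ^ k) ^ 2111 ≠ 0 := by positivity
    apply mul_left_cancel₀ hne
    rw [show 2112 = 2111 + 1 from rfl, pow_succ] at this
    simp only [eval_mul, eval_pow, eval_X, eval_add, eval_one] at this ⊢
    push_cast at this ⊢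
    generalize ((3 : ℚ) ^ k) ^ 2111 = Q at this ⊢
    linear_combination this
  simp at h3

end Pool.Agent.H793Z.Hig
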