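import Pool.Agent.H793Z.Hig.Ext

/-! The tree quiver of the counterexample, and the reduction of its count to nested sums. -/

set_option autoImplicit false
set_option synthInstance.maxSize 8192

namespace Pool.Agent.H793Z.Hig

open Finset

inductive V : Type
  | a | b | c | lc
  | e (i : Fin 3)
  | f (i : Fin 3) (j : Fin 2)
  | lf (i : Fin 3) (j : Fin 2)
  deriving DecidableEq, Fintype

def par : V → Option V
  | .a => none
  | .b => some .a
  | .c => some .b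
  | .lc => some .c
  | .e _ => some .c
  | .f i _ => some (.e i)
  | .lf i j => some (.f i j)

instance quivV : Quiver.{1} V := ⟨fun u v => ULift.{1} (PLift (par v = some u))⟩

instance homFin (u v : V) : Finite (u ⟶ v) :=
  inferInstanceAs (Finite (ULift.{1} (PLift (par v = some u))))

instance homSub (u v : V) : Subsingleton (u ⟶ v) :=
  inferInstanceAs (Subsingleton (ULift.{1} (PLift (par v = some u))))

lemma hom_par {u v : V} (e : u ⟶ v) : par v = some u := e.down.down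

lemma hom_src {u u' v : V} (e : u ⟶ v) (e' : u' ⟶ v) : u = u' :=
  Option.some.inj ((hom_par e).symm.trans (hom_par e'))

def dep : V → ℕ
  | .a => 0
  | .b => 1
  | .c => 2
  | .lc => 3
  | .e _ => 3
  | .f _ _ => 4
  | .lf _ _ => 5

lemma dep_hom {u v : V} (e : u ⟶ v) : dep v = dep u + 1 := by
  have h := hom_par e
  cases v <;> simp only [par, reduceCtorEq, Option.some.injEq] at h <;> subst h <;> rfl

lemma dep_path {i v : V} (p : Quiver.Path i v) : dep v = dep i + p.length := by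
  induction p with
  | nil => rfl
  | cons p e ih => rw [dep_hom e, ih, Quiver.Path.length_cons]; ring

lemma acyclic (v : V) (p : Quiver.Path v v) : p.length = 0 := by
  have := dep_path p
  omega

def d (m : ℕ) : V → ℕ
  | .a => 1
  | .b => 2
  | .c => 1
  | .lc => m
  | .e _ => 1
  | .f _ _ => 1
  | .lf _ _ => m

abbrev B (m : ℕ) (v : V) := Σ i : V, Fin (d m i) × Quiver.Path i v

abbrev cns (m : ℕ) {u v : V} (e : u ⟶ v) : B m u → B m v :=
  fun x => ⟨x.1, x.2.1, x.2.2.cons e⟩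

lemma sig_bij (m : ℕ) {u v : V} (e : u ⟶ v) :
    Function.Bijective (Sum.elim (cns m e) (fun k : Fin (d m v) => (⟨v, k, .nil⟩ : B m v))) := by
  constructor
  · rintro (⟨i, k, p⟩ | k) (⟨i', k', p'⟩ | k') h
    · simp only [Sum.elim_inl, cns, Sigma.mk.injEq] at h
      obtain ⟨rfl, h⟩ := h
      simp only [heq_eq_eq, Prod.mk.injEq, Quiver.Path.cons.injEq, true_and, and_true] at h
      obtain ⟨rfl, rfl⟩ := h
      rfl
    · simp only [Sum.elim_inl, Sum.elim_inr, cns, Sigma.mk.injEq] at h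
      obtain ⟨rfl, h⟩ := h
      simp at h
    · simp only [Sum.elim_inl, Sum.elim_inr, cns, Sigma.mk.injEq] at h
      obtain ⟨rfl, h⟩ := h
      simp at h
    · simp only [Sum.elim_inr, Sigma.mk.injEq] at h
      simp only [heq_eq_eq, Prod.mk.injEq, true_and, and_true] at h
      rw [h]
  · rintro ⟨i, k, p⟩
    cases p with
    | nil => exact ⟨Sum.inr k, rfl⟩
    | cons p e' =>
      obtain rfl := hom_src e e'
      obtain rfl := Subsingleton.elim e e'
      exact ⟨Sum.inl ⟨i, k, p⟩, rfl⟩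

noncomputable def sig (m : ℕ) {u v : V} (e : u ⟶ v) : B m u ⊕ Fin (d m v) ≃ B m v :=
  Equiv.ofBijective _ (sig_bij m e)

variable (K : Type) [Field K]

abbrev P (m : ℕ) (v : V) := B m v →₀ K

noncomputable abbrev ar (m : ℕ) {u v : V} (e : u ⟶ v) : P K m u →ₗ[K] P K m v :=
  Finsupp.lmapDomain K K (cns m e)

noncomputable def psi (m : ℕ) {u v : V} (e : u ⟶ v) :
    P K m v ≃ₗ[K] P K m u × (Fin (d m v) → K) :=
  (Finsupp.domLCongr (sig m e).symm).trans <| (Finsupp.sumFinsuppLEquivProdFinsupp K).trans <|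
    (LinearEquiv.refl K _).prodCongr (Finsupp.linearEquivFunOnFinite K K _)

lemma psi_ar (m : ℕ) {u v : V} (e : u ⟶ v) (x : P K m u) : psi K m e (ar K m e x) = (x, 0) := by
  have hinj : Function.Injective (cns m e) := fun x y h =>
    Sum.inl.inj ((sig_bij m e).1 (a₁ := Sum.inl x) (a₂ := Sum.inl y) h)
  refine Prod.ext ?_ ?_
  · ext y
    change (Finsupp.mapDomain (cns m e) x) (cns m e y) = x y
    exact Finsupp.mapDomain_apply hinj x y
  · ext k
    change (Finsupp.mapDomain (cns m e) x) (sig m e (Sum.inr k)) = 0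
    apply Finsupp.mapDomain_of_notMem_range
    rintro ⟨y, hy⟩
    have := (sig_bij m e).1 (a₁ := Sum.inl y) (a₂ := Sum.inr k) hy
    simp at this

variable {K} in
noncomputable def nxt (m : ℕ) {u v : V} (e : u ⟶ v) {N G : Type} [AddCommGroup N] [Module K N]
    [AddCommGroup G] [Module K G] (φ : P K m u ≃ₗ[K] N) (χ : (Fin (d m v) → K) ≃ₗ[K] G) :
    P K m v ≃ₗ[K] N × G := (psi K m e).trans (φ.prodCongr χ)

variable {K} in
lemma nxt_ar (m : ℕ) {u v : V} (e : u ⟶ v) {N G : Type} [AddCommGroup N] [Module K N]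
    [AddCommGroup G] [Module K G] (φ : P K m u ≃ₗ[K] N) (χ : (Fin (d m v) → K) ≃ₗ[K] G)
    (x : P K m u) : nxt m e φ χ (ar K m e x) = LinearMap.inl K N G (φ x) := by
  simp only [nxt, LinearEquiv.trans_apply, psi_ar]
  simp

variable {K} in
lemma extI_nxt (m : ℕ) {u v : V} (e : u ⟶ v) {N G : Type} [AddCommGroup N] [Module K N]
    [AddCommGroup G] [Module K G] (φ : P K m u ≃ₗ[K] N) (χ : (Fin (d m v) → K) ≃ₗ[K] G)
    (θ : EP K (P K m u)) (θ' : EP K (P K m v)) :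
    ExtI (ar K m e) θ θ' ↔ ExtI (LinearMap.inl K N G) (cj φ θ) (cj (nxt m e φ χ) θ') :=
  extI_cj _ _ φ _ (nxt_ar m e φ χ) θ θ'

lemma no_hom (u : V) (e : u ⟶ V.a) : False := by
  have := hom_par e
  simp [par] at this

instance uniqA (m : ℕ) : Unique (B m V.a) where
  default := ⟨V.a, (0 : Fin 1), .nil⟩
  uniq := by
    rintro ⟨i, k, p⟩
    cases p with
    | nil => obtain rfl : k = (0 : Fin 1) := Subsingleton.elim (α := Fin 1) _ _; rfl
    | cons p e => exact (no_hom _ e).elim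

def eb : V.a ⟶ V.b := ⟨⟨rfl⟩⟩
def ec : V.b ⟶ V.c := ⟨⟨rfl⟩⟩
def elc : V.c ⟶ V.lc := ⟨⟨rfl⟩⟩
def ee (i : Fin 3) : V.c ⟶ V.e i := ⟨⟨rfl⟩⟩
def ef (i : Fin 3) (j : Fin 2) : V.e i ⟶ V.f i j := ⟨⟨rfl⟩⟩
def el (i : Fin 3) (j : Fin 2) : V.f i j ⟶ V.lf i j := ⟨⟨rfl⟩⟩

lemma all_arrows (Q : ∀ u v : V, (u ⟶ v) → Prop) :
    (∀ u v e, Q u v e) ↔ Q _ _ eb ∧ Q _ _ ec ∧ Q _ _ elc ∧
      ∀ i, Q _ _ (ee i) ∧ ∀ j, Q _ _ (ef i j) ∧ Q _ _ (el i j) := by
  constructor
  · intro h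
    exact ⟨h _ _ _, h _ _ _, h _ _ _, fun i => ⟨h _ _ _, fun j => ⟨h _ _ _, h _ _ _⟩⟩⟩
  · rintro ⟨h1, h2, h3, h4⟩ u v e
    cases v with
    | a => exact (no_hom _ e).elim
    | b => obtain rfl := hom_src e eb; rw [Subsingleton.elim e eb]; exact h1
    | c => obtain rfl := hom_src e ec; rw [Subsingleton.elim e ec]; exact h2
    | lc => obtain rfl := hom_src e elc; rw [Subsingleton.elim e elc]; exact h3
    | e i => obtain rfl := hom_src e (ee i); rw [Subsingleton.elim e (ee i)]; exact (h4 i).1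
    | f i j =>
      obtain rfl := hom_src e (ef i j); rw [Subsingleton.elim e (ef i j)]; exact ((h4 i).2 j).1
    | lf i j =>
      obtain rfl := hom_src e (el i j); rw [Subsingleton.elim e (el i j)]; exact ((h4 i).2 j).2

abbrev Fam (m : ℕ) := (∀ v : V, P K m v →ₗ[K] P K m v) × (∀ v : V, P K m v →ₗ[K] P K m v)

/-- the condition in the statement -/
def Cnd (m : ℕ) (fg : Fam K m) : Prop :=
  (∀ (v w : V) (e : v ⟶ w), (fg.1 w).comp (ar K m e) = (ar K m e).comp (fg.1 v)) ∧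
  (∀ (v w : V) (e : v ⟶ w), (fg.2 w).comp (ar K m e) = (ar K m e).comp (fg.2 v)) ∧
  (∀ v : V, LinearMap.range (fg.1 v) ≤ ⨆ (u : V) (e : u ⟶ v), LinearMap.range (ar K m e)) ∧
  (∀ v : V, LinearMap.range (fg.2 v) ≤ ⨆ (u : V) (e : u ⟶ v), LinearMap.range (ar K m e)) ∧
  (∀ v : V, (fg.1 v).comp (fg.2 v) = (fg.2 v).comp (fg.1 v))

lemma sup_eq (m : ℕ) {u v : V} (e : u ⟶ v) :
    (⨆ (u : V) (e : u ⟶ v), LinearMap.range (ar K m e)) = LinearMap.range (ar K m e) := by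
  apply le_antisymm
  · refine iSup_le fun u' => iSup_le fun e' => ?_
    obtain rfl := hom_src e e'
    rw [Subsingleton.elim e e']
  · exact le_iSup₂_of_le u e le_rfl

lemma sup_a (m : ℕ) :
    (⨆ (u : V) (e : u ⟶ V.a), LinearMap.range (ar K m e)) = ⊥ := by
  apply le_antisymm
  · exact iSup_le fun u' => iSup_le fun e' => (no_hom _ e').elim
  · exact bot_le

lemma root_or (v : V) : v = V.a ∨ ∃ u, Nonempty (u ⟶ v) := by
  cases v with
  | a => exact Or.inl rfl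
  | b => exact Or.inr ⟨_, ⟨eb⟩⟩
  | c => exact Or.inr ⟨_, ⟨ec⟩⟩
  | lc => exact Or.inr ⟨_, ⟨elc⟩⟩
  | e i => exact Or.inr ⟨_, ⟨ee i⟩⟩
  | f i j => exact Or.inr ⟨_, ⟨ef i j⟩⟩
  | lf i j => exact Or.inr ⟨_, ⟨el i j⟩⟩

lemma cnd_iff (m : ℕ) (fg : Fam K m) :
    Cnd K m fg ↔ ((fg.1 V.a, fg.2 V.a) : EP K _) = 0 ∧
      ∀ (u v : V) (e : u ⟶ v), ExtI (ar K m e) (fg.1 u, fg.2 u) (fg.1 v, fg.2 v) := by
  constructor
  · rintro ⟨h1, h2, h3, h4, h5⟩
    refine ⟨?_, fun u v e => ⟨h1 _ _ e, h2 _ _ e, ?_, ?_, h5 v⟩⟩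
    · have a3 := h3 V.a
      have a4 := h4 V.a
      rw [sup_a, le_bot_iff, LinearMap.range_eq_bot] at a3 a4
      exact Prod.ext a3 a4
    · rw [← sup_eq K m e]; exact h3 v
    · rw [← sup_eq K m e]; exact h4 v
  · rintro ⟨h0, h⟩
    have a1 : fg.1 V.a = 0 := congrArg Prod.fst h0
    have a2 : fg.2 V.a = 0 := congrArg Prod.snd h0
    refine ⟨fun v w e => (h _ _ e).1, fun v w e => (h _ _ e).2.1, fun v => ?_, fun v => ?_,
      fun v => ?_⟩
    · rcases root_or v with rfl | ⟨u, ⟨e⟩⟩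
      · rw [a1]; simp
      · rw [sup_eq K m e]; exact (h _ _ e).2.2.1
    · rcases root_or v with rfl | ⟨u, ⟨e⟩⟩
      · rw [a2]; simp
      · rw [sup_eq K m e]; exact (h _ _ e).2.2.2.1
    · rcases root_or v with rfl | ⟨u, ⟨e⟩⟩
      · rw [a1, a2]
      · exact (h _ _ e).2.2.2.2

abbrev Nb := K × (K × K)
abbrev Nc := Nb K × K
abbrev Ne := Nc K × K
abbrev Nf := Ne K × K

noncomputable def pa (m : ℕ) : P K m V.a ≃ₗ[K] K := Finsupp.uniqueLinearEquiv K K default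
noncomputable def pb (m : ℕ) : P K m V.b ≃ₗ[K] Nb K :=
  nxt m eb (pa K m) (LinearEquiv.finTwoArrow K K)
noncomputable def pc (m : ℕ) : P K m V.c ≃ₗ[K] Nc K :=
  nxt m ec (pb K m) (LinearEquiv.funUnique (Fin 1) K K)
noncomputable def plc (m : ℕ) : P K m V.lc ≃ₗ[K] Nc K × (Fin m → K) :=
  nxt m elc (pc K m) (LinearEquiv.refl K (Fin m → K))
noncomputable def pe (m : ℕ) (i : Fin 3) : P K m (V.e i) ≃ₗ[K] Ne K :=
  nxt m (ee i) (pc K m) (LinearEquiv.funUnique (Fin 1) K K)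
noncomputable def pf (m : ℕ) (i : Fin 3) (j : Fin 2) : P K m (V.f i j) ≃ₗ[K] Nf K :=
  nxt m (ef i j) (pe K m i) (LinearEquiv.funUnique (Fin 1) K K)
noncomputable def plf (m : ℕ) (i : Fin 3) (j : Fin 2) :
    P K m (V.lf i j) ≃ₗ[K] Nf K × (Fin m → K) :=
  nxt m (el i j) (pf K m i j) (LinearEquiv.refl K (Fin m → K))

abbrev Mod (m : ℕ) := EP K K × EP K (Nb K) × EP K (Nc K) × EP K (Nc K × (Fin m → K)) ×
  (Fin 3 → EP K (Ne K) × (Fin 2 → EP K (Nf K) × EP K (Nf K × (Fin m → K))))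

noncomputable def back (m : ℕ) (t : Mod K m) : ∀ v : V, EP K (P K m v)
  | .a => (cj (pa K m)).symm t.1
  | .b => (cj (pb K m)).symm t.2.1
  | .c => (cj (pc K m)).symm t.2.2.1
  | .lc => (cj (plc K m)).symm t.2.2.2.1
  | .e i => (cj (pe K m i)).symm (t.2.2.2.2 i).1
  | .f i j => (cj (pf K m i j)).symm ((t.2.2.2.2 i).2 j).1
  | .lf i j => (cj (plf K m i j)).symm ((t.2.2.2.2 i).2 j).2

noncomputable def famEquiv (m : ℕ) : Fam K m ≃ Mod K m where
  toFun fg := (cj (pa K m) (fg.1 _, fg.2 _), cj (pb K m) (fg.1 _, fg.2 _),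
    cj (pc K m) (fg.1 _, fg.2 _), cj (plc K m) (fg.1 _, fg.2 _),
    fun i => (cj (pe K m i) (fg.1 _, fg.2 _),
      fun j => (cj (pf K m i j) (fg.1 _, fg.2 _), cj (plf K m i j) (fg.1 _, fg.2 _))))
  invFun t := (fun v => (back K m t v).1, fun v => (back K m t v).2)
  left_inv fg := by
    refine Prod.ext (funext fun v => ?_) (funext fun v => ?_) <;> cases v <;>
      simp only [back, Equiv.symm_apply_apply]
  right_inv t := by
    simp only [back, Prod.mk.eta, Equiv.apply_symm_apply]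

/-- the condition on the model -/
def CndM (m : ℕ) (t : Mod K m) : Prop :=
  t.1 = 0 ∧ ExtI (LinearMap.inl K _ _) t.1 t.2.1 ∧ ExtI (LinearMap.inl K _ _) t.2.1 t.2.2.1 ∧
    ExtI (LinearMap.inl K _ _) t.2.2.1 t.2.2.2.1 ∧
    ∀ i, ExtI (LinearMap.inl K _ _) t.2.2.1 (t.2.2.2.2 i).1 ∧
      ∀ j, ExtI (LinearMap.inl K _ _) (t.2.2.2.2 i).1 ((t.2.2.2.2 i).2 j).1 ∧
        ExtI (LinearMap.inl K _ _) ((t.2.2.2.2 i).2 j).1 ((t.2.2.2.2 i).2 j).2

lemma cnd_iff_model (m : ℕ) (fg : Fam K m) : Cnd K m fg ↔ CndM K m (famEquiv K m fg) := by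
  rw [cnd_iff, all_arrows]
  refine and_congr ?_ (and_congr (extI_nxt m _ _ _ _ _) (and_congr (extI_nxt m _ _ _ _ _)
    (and_congr (extI_nxt m _ _ _ _ _) (forall_congr' fun i => and_congr (extI_nxt m _ _ _ _ _)
      (forall_congr' fun j => and_congr (extI_nxt m _ _ _ _ _) (extI_nxt m _ _ _ _ _))))))
  change _ ↔ cj (pa K m) (fg.1 _, fg.2 _) = 0
  have : cj (pa K m) 0 = 0 := by
    refine Prod.ext ?_ ?_ <;> simp [cj]
  rw [← this, Equiv.apply_eq_iff_eq]

variable [Fintype K]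

/-- the nested sum -/
noncomputable def Tot (m : ℕ) : ℤ :=
  S (K × K) (fun θb => S K (fun θc => S (Fin m → K) (fun _ => 1) θc *
    (S K (fun θe => (S K (fun θf => S (Fin m → K) (fun _ => 1) θf) θe) ^ 2) θc) ^ 3) θb)
    (0 : EP K K)

lemma lvl_f (m : ℕ) (θe : EP K (Ne K)) :
    ∑ tf : Fin 2 → EP K (Nf K) × EP K (Nf K × (Fin m → K)),
      ∏ j, I (ExtI (LinearMap.inl K _ _) θe (tf j).1) *
        I (ExtI (LinearMap.inl K _ _) (tf j).1 (tf j).2) =
      (S K (fun θf => S (Fin m → K) (fun _ => 1) θf) θe) ^ 2 := by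
  have : S K (fun θf => S (Fin m → K) (fun _ => 1) θf) θe =
      ∑ x : EP K (Nf K) × EP K (Nf K × (Fin m → K)),
        I (ExtI (LinearMap.inl K _ _) θe x.1) * I (ExtI (LinearMap.inl K _ _) x.1 x.2) := by
    rw [Fintype.sum_prod_type]
    simp only [S, Finset.mul_sum, mul_one]
  rw [this, Fintype.sum_pow]

lemma lvl_e (m : ℕ) (θc : EP K (Nc K)) :
    ∑ te : Fin 3 → EP K (Ne K) × (Fin 2 → EP K (Nf K) × EP K (Nf K × (Fin m → K))),
      ∏ i, I (ExtI (LinearMap.inl K _ _) θc (te i).1) *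
        ∏ j, I (ExtI (LinearMap.inl K _ _) (te i).1 ((te i).2 j).1) *
          I (ExtI (LinearMap.inl K _ _) ((te i).2 j).1 ((te i).2 j).2) =
      (S K (fun θe => (S K (fun θf => S (Fin m → K) (fun _ => 1) θf) θe) ^ 2) θc) ^ 3 := by
  have : S K (fun θe => (S K (fun θf => S (Fin m → K) (fun _ => 1) θf) θe) ^ 2) θc =
      ∑ x : EP K (Ne K) × (Fin 2 → EP K (Nf K) × EP K (Nf K × (Fin m → K))),
        I (ExtI (LinearMap.inl K _ _) θc x.1) *
        ∏ j, I (ExtI (LinearMap.inl K _ _) x.1 (x.2 j).1) *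
          I (ExtI (LinearMap.inl K _ _) (x.2 j).1 (x.2 j).2) := by
    rw [Fintype.sum_prod_type]
    simp only [← lvl_f, ← Finset.mul_sum]
    rfl
  rw [this, Fintype.sum_pow]

theorem card_eq (m : ℕ) : (Nat.card {fg : Fam K m // Cnd K m fg} : ℤ) = Tot K m := by
  rw [Nat.card_congr (Equiv.subtypeEquiv (famEquiv K m) (cnd_iff_model K m)), ← sum_I]
  simp only [CndM, I_and, I_forall]
  rw [Fintype.sum_prod_type]
  simp only [← Finset.mul_sum]
  rw [sum_I_eq]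
  unfold Tot
  rw [Fintype.sum_prod_type, S]
  refine Finset.sum_congr rfl fun θb _ => ?_
  simp only [← Finset.mul_sum]
  congr 1
  rw [Fintype.sum_prod_type, S]
  refine Finset.sum_congr rfl fun θc _ => ?_
  simp only [← Finset.mul_sum]
  congr 1
  rw [Fintype.sum_prod_type, ← lvl_e, S, Finset.sum_mul]
  refine Finset.sum_congr rfl fun θl _ => ?_
  simp only [← Finset.mul_sum, mul_one]

end Pool.Agent.H793Z.Hig
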