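import Pool.Agent.H793Z.Hig.Forms
import Pool.Agent.H793Z.Hig.Quiver

/-! Evaluation of the nested sum modulo a power of the field size. -/

set_option autoImplicit false
set_option linter.unusedSectionVars false
set_option synthInstance.maxSize 8192

namespace Pool.Agent.H793Z.Hig

open Finset

variable {K : Type} [Field K] [Fintype K]

section
variable {M : Type} [AddCommGroup M] [Module K M] [Fintype M]

noncomputable def Tf (m : ℕ) (θ : EP K M) : ℤ :=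
  ∑ uv : M × M, I (θ.1 uv.2 = θ.2 uv.1) * cc θ uv.1 uv.2 ^ m
noncomputable def Sf (θ : EP K M) : ℤ :=
  ∑ uv : M × M, I (θ.1 uv.2 = θ.2 uv.1) * I (Gen θ uv.1 uv.2)
noncomputable def Te (m : ℕ) (θ : EP K M) : ℤ :=
  ∑ uv : M × M, I (θ.1 uv.2 = θ.2 uv.1) * Tf m (ext1 θ uv.1 uv.2) ^ 2
noncomputable def Se (θ : EP K M) : ℤ :=
  ∑ uv : M × M, I (θ.1 uv.2 = θ.2 uv.1) * Sf (ext1 θ uv.1 uv.2) ^ 2
noncomputable def Tc (m : ℕ) (θ : EP K M) : ℤ :=
  ∑ uv : M × M, I (θ.1 uv.2 = θ.2 uv.1) * (cc θ uv.1 uv.2 ^ m * Te m (ext1 θ uv.1 uv.2) ^ 3)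
noncomputable def Sc (θ : EP K M) : ℤ :=
  ∑ uv : M × M, I (θ.1 uv.2 = θ.2 uv.1) * (I (Gen θ uv.1 uv.2) * Se (ext1 θ uv.1 uv.2) ^ 3)

lemma Tf_modEq (m : ℕ) (θ : EP K M) : Tf m θ ≡ Sf θ [ZMOD (Fintype.card K : ℤ) ^ m] :=
  sum_modEq fun _ => (cc_modEq _ _ _ m).mul_left _
lemma Te_modEq (m : ℕ) (θ : EP K M) : Te m θ ≡ Se θ [ZMOD (Fintype.card K : ℤ) ^ m] :=
  sum_modEq fun _ => ((Tf_modEq m _).pow 2).mul_left _
lemma Tc_modEq (m : ℕ) (θ : EP K M) : Tc m θ ≡ Sc θ [ZMOD (Fintype.card K : ℤ) ^ m] :=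
  sum_modEq fun _ => ((cc_modEq _ _ _ m).mul ((Te_modEq m _).pow 3)).mul_left _

lemma S_f (m : ℕ) (θ : EP K M) (h : Comm θ) :
    S K (fun θf => S (Fin m → K) (fun _ => 1) θf) θ =
      ((Fintype.card K : ℤ) ^ 2 * Fintype.card M) ^ m * Tf m θ := by
  rw [S1_eq θ h, Tf, Finset.mul_sum]
  refine Finset.sum_congr rfl fun uv _ => ?_
  rw [mul_left_comm]
  exact I_mul_congr fun hv => leaf1_eq θ h _ _ hv m

lemma S_e (m : ℕ) (θ : EP K M) (h : Comm θ) :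
    S K (fun θe => (S K (fun θf => S (Fin m → K) (fun _ => 1) θf) θe) ^ 2) θ =
      (((Fintype.card K : ℤ) ^ 3 * Fintype.card M) ^ m) ^ 2 * Te m θ := by
  rw [S1_eq θ h, Te, Finset.mul_sum]
  refine Finset.sum_congr rfl fun uv _ => ?_
  rw [mul_left_comm]
  refine I_mul_congr fun hv => ?_
  rw [S_f m _ (comm_ext1 θ h _ _ hv), Fintype.card_prod, mul_pow]
  push_cast
  congr 3; ring

lemma S_c (m : ℕ) (θ : EP K M) (h : Comm θ) :
    S K (fun θc => S (Fin m → K) (fun _ => 1) θc *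
      (S K (fun θe => (S K (fun θf => S (Fin m → K) (fun _ => 1) θf) θe) ^ 2) θc) ^ 3) θ =
      ((Fintype.card K : ℤ) ^ 26 * (Fintype.card M : ℤ) ^ 7) ^ m * Tc m θ := by
  rw [S1_eq θ h, Tc, Finset.mul_sum]
  refine Finset.sum_congr rfl fun uv _ => ?_
  rw [mul_left_comm (_ ^ m)]
  refine I_mul_congr fun hv => ?_
  rw [S_e m _ (comm_ext1 θ h _ _ hv), leaf1_eq θ h _ _ hv m, Fintype.card_prod]
  push_cast
  have : ((Fintype.card K : ℤ) ^ 26 * (Fintype.card M : ℤ) ^ 7) ^ m =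
      ((Fintype.card K : ℤ) ^ 2 * Fintype.card M) ^ m *
        (((Fintype.card K : ℤ) ^ 3 * (Fintype.card M * Fintype.card K)) ^ m) ^ 6 := by
    rw [← pow_mul, mul_comm m 6, pow_mul, ← mul_pow]; congr 1; ring
  rw [this]; ring

lemma gen_top (θ : EP K M) (u v : M) (hg : Gen θ u v) (u' v' : M × K) (hu : u'.2 = 0)
    (hv : v'.2 = 0) (u'' v'' : (M × K) × K) :
    Gen (ext1 (ext1 θ u v) u' v') u'' v'' ↔ u''.1.2 * v''.2 - v''.1.2 * u''.2 ≠ 0 := by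
  constructor
  · intro h hd
    obtain ⟨a, b, s, t, e⟩ := h ((0, 1), 0)
    obtain ⟨a', b', s', t', e'⟩ := h ((0, 0), 1)
    have e1 := congrArg (fun x => x.1.2) e
    have e2 := congrArg (fun x => x.2) e
    have e3 := congrArg (fun x => x.1.2) e'
    have e4 := congrArg (fun x => x.2) e'
    simp [hu, hv] at e1 e2 e3 e4
    have : (1 : K) = 0 := by
      linear_combination (-(s' * u''.2 + t' * v''.2)) * e1 + (s' * u''.1.2 + t' * v''.1.2) * e2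
        - e4 + (s * t' - s' * t) * hd
    exact one_ne_zero this
  · intro hd x
    set D := u''.1.2 * v''.2 - v''.1.2 * u''.2 with hD
    set s := (x.1.2 * v''.2 - v''.1.2 * x.2) / D with hs
    set t := (u''.1.2 * x.2 - x.1.2 * u''.2) / D with ht
    obtain ⟨a, b, s', t', e⟩ := hg (x.1.1 - s • u''.1.1 - t • v''.1.1)
    refine ⟨((a, s'), 0), ((b, t'), 0), s, t, ?_⟩
    refine Prod.ext (Prod.ext ?_ ?_) ?_
    · simp
      rw [← sub_eq_zero] at e ⊢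
      rw [← e]; abel
    · simp [hs, ht]; field_simp; ring
    · simp [hs, ht]; field_simp; ring
end

def lf (x : K × K) : K × K →ₗ[K] K := x.1 • LinearMap.fst K K K + x.2 • LinearMap.snd K K K

def lfEquiv : K × K ≃ (K × K →ₗ[K] K) where
  toFun := lf
  invFun f := (f (1, 0), f (0, 1))
  left_inv x := by simp [lf]
  right_inv f := by ext <;> simp [lf]

def thb (ξ η : K × K) : EP K (Nb K) := ext 0 (lf ξ) (lf η)

@[simp] lemma thb_fst (ξ η : K × K) (x : Nb K) :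
    (thb ξ η).1 x = (ξ.1 * x.2.1 + ξ.2 * x.2.2, 0) := by simp [thb, lf]
@[simp] lemma thb_snd (ξ η : K × K) (x : Nb K) :
    (thb ξ η).2 x = (η.1 * x.2.1 + η.2 * x.2.2, 0) := by simp [thb, lf]

lemma Tot_eq (m : ℕ) : Tot K m = (Fintype.card K : ℤ) ^ (47 * m) *
    ∑ x : (K × K) × (K × K), Tc m (thb x.1 x.2) := by
  have h0 : Comm (0 : EP K K) := by simp [Comm]
  unfold Tot
  rw [S_eq _ h0, Finset.mul_sum]
  symm
  refine Fintype.sum_equiv (lfEquiv.prodCongr lfEquiv) _ _ fun x => ?_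
  rw [I_pos (by simp), one_mul, S_c m _ ((comm_ext _ h0 _ _).mpr (by simp))]
  simp only [Fintype.card_prod]
  push_cast
  rw [pow_mul]
  congr 2
  ring

lemma gen_b (ξ η : K × K) (u v : Nb K) :
    Gen (thb ξ η) u v ↔ u.2.1 * v.2.2 - u.2.2 * v.2.1 ≠ 0 ∧ ¬ (ξ = 0 ∧ η = 0) := by
  constructor
  · intro h
    have hd : u.2.1 * v.2.2 - u.2.2 * v.2.1 ≠ 0 := by
      intro hd
      obtain ⟨a, b, s, t, e⟩ := h (0, 1, 0)
      obtain ⟨a', b', s', t', e'⟩ := h (0, 0, 1)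
      have e1 := congrArg (fun x => x.2.1) e
      have e2 := congrArg (fun x => x.2.2) e
      have e3 := congrArg (fun x => x.2.1) e'
      have e4 := congrArg (fun x => x.2.2) e'
      simp at e1 e2 e3 e4
      have : (1 : K) = 0 := by
        linear_combination (-(s' * u.2.2 + t' * v.2.2)) * e1 + (s' * u.2.1 + t' * v.2.1) * e2
          - e4 + (s * t' - s' * t) * hd
      exact one_ne_zero this
    refine ⟨hd, ?_⟩
    rintro ⟨rfl, rfl⟩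
    obtain ⟨a, b, s, t, e⟩ := h (1, 0, 0)
    have e1 := congrArg (fun x => x.1) e
    have e2 := congrArg (fun x => x.2.1) e
    have e3 := congrArg (fun x => x.2.2) e
    simp at e1 e2 e3
    have hs : s = 0 := by
      apply mul_left_cancel₀ hd; linear_combination v.2.2 * e2 - v.2.1 * e3
    have ht : t = 0 := by
      apply mul_left_cancel₀ hd; linear_combination u.2.1 * e3 - u.2.2 * e2
    simp [hs, ht] at e1
  · rintro ⟨hd, hne⟩ x
    set D := u.2.1 * v.2.2 - u.2.2 * v.2.1 with hD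
    set s := (x.2.1 * v.2.2 - v.2.1 * x.2.2) / D with hs
    set t := (u.2.1 * x.2.2 - x.2.1 * u.2.2) / D with ht
    obtain ⟨a, b, e⟩ : ∃ a b : K × K, ξ.1 * a.1 + ξ.2 * a.2 + (η.1 * b.1 + η.2 * b.2) = 1 := by
      by_cases h1 : ξ.1 = 0
      · by_cases h2 : ξ.2 = 0
        · by_cases h3 : η.1 = 0
          · have h4 : η.2 ≠ 0 := fun h4 => hne ⟨Prod.ext h1 h2, Prod.ext h3 h4⟩
            exact ⟨0, (0, η.2⁻¹), by simp [h4]⟩
          · exact ⟨0, (η.1⁻¹, 0), by simp [h3]⟩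
        · exact ⟨(0, ξ.2⁻¹), 0, by simp [h2]⟩
      · exact ⟨(ξ.1⁻¹, 0), 0, by simp [h1]⟩
    refine ⟨(0, (x.1 - s * u.1 - t * v.1) • a), (0, (x.1 - s * u.1 - t * v.1) • b), s, t, ?_⟩
    refine Prod.ext ?_ (Prod.ext ?_ ?_)
    · simp
      linear_combination (x.1 - s * u.1 - t * v.1) * e
    · simp [hs, ht]; field_simp; ring
    · simp [hs, ht]; field_simp; ring

def eqF : (K × K) × (K × K) × ((K × K) × (K × K)) × (K × K) ≃ Ne K × Ne K where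
  toFun y := ((((y.2.2.2.1, y.2.2.1.1), y.2.1.1), y.1.2), (((y.2.2.2.2, y.2.2.1.2), y.2.1.2), y.1.1))
  invFun x := ((x.2.2, x.1.2), (x.1.1.2, x.2.1.2), (x.1.1.1.2, x.2.1.1.2), (x.1.1.1.1, x.2.1.1.1))
  left_inv _ := rfl
  right_inv _ := rfl

/-- the extension at level `e` with parameters -/
def fe (u v : Nb K) (y : (K × K) × K × (K × K × K)) : Nc K × Nc K :=
  (((y.1.1, y.2.1 • u.2 + y.2.2.1 • v.2), 0),
    ((y.1.2, y.2.2.2.2 • u.2 + (y.2.2.2.1 + y.2.1) • v.2), 0))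

lemma Sf_val (ξ η : K × K) (u v : Nb K) (hg : Gen (thb ξ η) u v)
    (y : (K × K) × K × (K × K × K)) :
    Sf (ext1 (ext1 (thb ξ η) u v) (fe u v y).1 (fe u v y).2) =
      (Fintype.card K : ℤ) ^ 5 * hh y.2.2 := by
  obtain ⟨hd, hne⟩ := (gen_b ξ η u v).mp hg
  obtain ⟨⟨z1, z2⟩, a, b, D, c⟩ := y
  unfold Sf
  rw [← Equiv.sum_comp eqF, Fintype.sum_prod_type, hh, Finset.mul_sum]
  refine Finset.sum_congr rfl fun p _ => ?_
  obtain ⟨s2, s1⟩ := p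
  have hv : ∀ (r : K × K) (w : (K × K) × (K × K)) (z : K × K),
      ((ext1 (ext1 (thb ξ η) u v) (fe u v ((z1, z2), a, b, D, c)).1
          (fe u v ((z1, z2), a, b, D, c)).2).1 (eqF ((s2, s1), r, w, z)).2 =
        (ext1 (ext1 (thb ξ η) u v) (fe u v ((z1, z2), a, b, D, c)).1
          (fe u v ((z1, z2), a, b, D, c)).2).2 (eqF ((s2, s1), r, w, z)).1) ↔
      (r = (s2 * b - s1 * (D + a), s1 * c - s2 * a) ∧
        (-η.1) * w.1.1 + (-η.2) * w.1.2 + ξ.1 * w.2.1 + ξ.2 * w.2.2 =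
          r.1 * v.1 + s1 * z2 - r.2 * u.1 - s2 * z1) := by
    rintro ⟨r1, r2⟩ w z
    simp only [eqF, fe, Equiv.coe_fn_mk, ext1_fst, ext1_snd, thb_fst, thb_snd, Prod.ext_iff,
      Prod.fst_add, Prod.snd_add, Prod.smul_fst, Prod.smul_snd, smul_eq_mul, Prod.fst_zero,
      Prod.snd_zero, mul_zero, add_zero, zero_add, and_true]
    constructor
    · rintro ⟨e0, e1, e2⟩
      refine ⟨⟨?_, ?_⟩, ?_⟩
      · apply mul_left_cancel₀ hd; linear_combination u.2.2 * e1 - u.2.1 * e2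
      · apply mul_left_cancel₀ hd; linear_combination v.2.2 * e1 - v.2.1 * e2
      · linear_combination e0
    · rintro ⟨⟨rfl, rfl⟩, e⟩
      refine ⟨?_, ?_, ?_⟩
      · linear_combination e
      · ring
      · ring
  have hG : ∀ (r : K × K) (w : (K × K) × (K × K)) (z : K × K),
      Gen (ext1 (ext1 (thb ξ η) u v) (fe u v ((z1, z2), a, b, D, c)).1
          (fe u v ((z1, z2), a, b, D, c)).2) (eqF ((s2, s1), r, w, z)).1
          (eqF ((s2, s1), r, w, z)).2 ↔ r.1 * s2 - r.2 * s1 ≠ 0 := by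
    intro r w z
    rw [gen_top _ _ _ hg _ _ rfl rfl]
    rfl
  rw [Fintype.sum_prod_type]
  simp_rw [Fintype.sum_prod_type (α₁ := (K × K) × (K × K)), hv, hG, I_and, mul_assoc,
    ← Finset.mul_sum]
  rw [sum_I_eq]
  simp only [Finset.sum_const, Finset.card_univ, nsmul_eq_mul, Fintype.card_prod]
  simp_rw [mul_left_comm (I _)]
  rw [← Finset.mul_sum, ← Finset.sum_mul, lin4]
  · have : (s2 * b - s1 * (D + a)) * s2 - (s1 * c - s2 * a) * s1 = dot (ev (s2, s1)) (b, D, c) := by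
      simp only [dot, ev]; ring
    rw [this]; push_cast; ring
  · rintro ⟨h1, h2, h3, h4⟩
    exact hne ⟨Prod.ext h3 h4, Prod.ext (neg_eq_zero.mp h1) (neg_eq_zero.mp h2)⟩

/-- the form attached to the level `c` data -/
def FF (ξ η u v : K × K) : K × K × K :=
  (ξ.1 * u.1 + ξ.2 * u.2, ξ.1 * v.1 + ξ.2 * v.2, η.1 * v.1 + η.2 * v.2)

lemma Se_val (ξ η : K × K) (u v : Nb K) (hg : Gen (thb ξ η) u v)
    (hv : ξ.1 * v.2.1 + ξ.2 * v.2.2 = η.1 * u.2.1 + η.2 * u.2.2) :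
    Se (ext1 (thb ξ η) u v) = (Fintype.card K : ℤ) ^ 13 * g (FF ξ η u.2 v.2) := by
  obtain ⟨hd, hne⟩ := (gen_b ξ η u v).mp hg
  unfold Se
  rw [sum_I_inj (fe u v) ?_ _ (fun y => dot (Fp (FF ξ η u.2 v.2)) y.2.2 = 0) ?_
    (fun uv => Sf (ext1 (ext1 (thb ξ η) u v) uv.1 uv.2) ^ 2)]
  · simp_rw [Sf_val ξ η u v hg]
    rw [Fintype.sum_prod_type]
    simp_rw [Fintype.sum_prod_type (α₁ := K) (α₂ := K × K × K)]
    simp only [Finset.sum_const, Finset.card_univ, nsmul_eq_mul, Fintype.card_prod]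
    unfold g
    simp_rw [mul_pow, mul_left_comm (I _), ← Finset.mul_sum]
    push_cast; ring
  · rintro ⟨⟨z1, z2⟩, a, b, D, c⟩ ⟨⟨z1', z2'⟩, a', b', D', c'⟩ h
    simp only [fe, Prod.ext_iff, Prod.fst_add, Prod.snd_add, Prod.smul_fst, Prod.smul_snd,
      smul_eq_mul, and_true] at h
    obtain ⟨⟨rfl, e1, e2⟩, rfl, e3, e4⟩ := h
    obtain rfl : a = a' := by
      apply mul_left_cancel₀ hd; linear_combination v.2.2 * e1 - v.2.1 * e2
    obtain rfl : b = b' := by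
      apply mul_left_cancel₀ hd; linear_combination u.2.1 * e2 - u.2.2 * e1
    obtain rfl : c = c' := by
      apply mul_left_cancel₀ hd; linear_combination v.2.2 * e3 - v.2.1 * e4
    obtain rfl : D = D' := by
      apply mul_left_cancel₀ hd; linear_combination u.2.1 * e4 - u.2.2 * e3
    rfl
  · rintro ⟨⟨⟨z1, w1, w1'⟩, r1⟩, ⟨⟨z2, w2, w2'⟩, r2⟩⟩
    simp only [ext1_fst, ext1_snd, thb_fst, thb_snd, Prod.ext_iff,
      Prod.fst_add, Prod.snd_add, Prod.smul_fst, Prod.smul_snd, smul_eq_mul, Prod.fst_zero,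
      Prod.snd_zero, zero_add, and_true, fe, dot, Fp, FF]
    constructor
    · rintro ⟨e0, e1, e2⟩
      obtain rfl : r1 = 0 := by
        apply mul_left_cancel₀ hd; linear_combination u.2.2 * e1 - u.2.1 * e2
      obtain rfl : r2 = 0 := by
        apply mul_left_cancel₀ hd; linear_combination v.2.2 * e1 - v.2.1 * e2
      set Δ := u.2.1 * v.2.2 - u.2.2 * v.2.1 with hΔ
      obtain ⟨a, b, ha, hb⟩ : ∃ a b : K, a * u.2.1 + b * v.2.1 = w1 ∧ a * u.2.2 + b * v.2.2 = w1' :=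
        ⟨(w1 * v.2.2 - w1' * v.2.1) / Δ, (u.2.1 * w1' - u.2.2 * w1) / Δ,
          by field_simp; ring, by field_simp; ring⟩
      obtain ⟨c, d, hc, hd'⟩ : ∃ a b : K, a * u.2.1 + b * v.2.1 = w2 ∧ a * u.2.2 + b * v.2.2 = w2' :=
        ⟨(w2 * v.2.2 - w2' * v.2.1) / Δ, (u.2.1 * w2' - u.2.2 * w2) / Δ,
          by field_simp; ring, by field_simp; ring⟩
      refine ⟨((z1, z2), a, b, d - a, c), ?_, ⟨⟨rfl, ha, hb⟩, rfl⟩, ⟨rfl, ?_, ?_⟩, rfl⟩
      · subst ha hb hc hd'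
        linear_combination e0 - a * hv
      · linear_combination hc
      · linear_combination hd'
    · rintro ⟨⟨⟨y1, y2⟩, a, b, D, c⟩, e, ⟨⟨rfl, rfl, rfl⟩, rfl⟩, ⟨rfl, rfl, rfl⟩, rfl⟩
      refine ⟨?_, by simp, by simp⟩
      linear_combination e + a * hv

def eqC : (K × K) × ((K × K) × (K × K)) ≃ Nb K × Nb K where
  toFun y := ((y.1.1, y.2.1), (y.1.2, y.2.2))
  invFun x := ((x.1.1, x.2.1), (x.1.2, x.2.2))
  left_inv _ := rfl
  right_inv _ := rfl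

lemma Sc_val (ξ η : K × K) : Sc (thb ξ η) = (Fintype.card K : ℤ) ^ 41 *
    ∑ w : (K × K) × (K × K), I (w.1.1 * w.2.2 - w.1.2 * w.2.1 ≠ 0) *
      (I (ξ.1 * w.2.1 + ξ.2 * w.2.2 = η.1 * w.1.1 + η.2 * w.1.2 ∧ ¬ (ξ = 0 ∧ η = 0)) *
        g (FF ξ η w.1 w.2) ^ 3) := by
  unfold Sc
  rw [← Equiv.sum_comp eqC, Fintype.sum_prod_type]
  have : ∀ (z : K × K) (w : (K × K) × (K × K)),
      I ((thb ξ η).1 (eqC (z, w)).2 = (thb ξ η).2 (eqC (z, w)).1) *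
        (I (Gen (thb ξ η) (eqC (z, w)).1 (eqC (z, w)).2) *
          Se (ext1 (thb ξ η) (eqC (z, w)).1 (eqC (z, w)).2) ^ 3) =
      (Fintype.card K : ℤ) ^ 39 * (I (w.1.1 * w.2.2 - w.1.2 * w.2.1 ≠ 0) *
      (I (ξ.1 * w.2.1 + ξ.2 * w.2.2 = η.1 * w.1.1 + η.2 * w.1.2 ∧ ¬ (ξ = 0 ∧ η = 0)) *
        g (FF ξ η w.1 w.2) ^ 3)) := by
    intro z w
    have h1 : (thb ξ η).1 (eqC (z, w)).2 = (thb ξ η).2 (eqC (z, w)).1 ↔
        ξ.1 * w.2.1 + ξ.2 * w.2.2 = η.1 * w.1.1 + η.2 * w.1.2 := by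
      simp [eqC]
    have h2 : I ((thb ξ η).1 (eqC (z, w)).2 = (thb ξ η).2 (eqC (z, w)).1) *
        (I (Gen (thb ξ η) (eqC (z, w)).1 (eqC (z, w)).2) *
          Se (ext1 (thb ξ η) (eqC (z, w)).1 (eqC (z, w)).2) ^ 3) =
        I ((thb ξ η).1 (eqC (z, w)).2 = (thb ξ η).2 (eqC (z, w)).1) *
        (I (Gen (thb ξ η) (eqC (z, w)).1 (eqC (z, w)).2) *
          ((Fintype.card K : ℤ) ^ 13 * g (FF ξ η w.1 w.2)) ^ 3) :=
      I_mul_congr fun hv => I_mul_congr fun hg => by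
        rw [Se_val ξ η _ _ hg (h1.mp hv)]; rfl
    rw [h2, I_congr h1, I_congr (gen_b ξ η _ _), I_and, I_and]
    change _ * (I (w.1.1 * w.2.2 - w.1.2 * w.2.1 ≠ 0) * _ * _) = _
    ring
  simp_rw [this, ← Finset.mul_sum]
  simp only [Finset.sum_const, Finset.card_univ, nsmul_eq_mul, Fintype.card_prod]
  push_cast; ring

lemma inner_val (u v : K × K) (hd : u.1 * v.2 - u.2 * v.1 ≠ 0) :
    ∑ x : (K × K) × (K × K),
      I (x.1.1 * v.1 + x.1.2 * v.2 = x.2.1 * u.1 + x.2.2 * u.2 ∧ ¬ (x.1 = 0 ∧ x.2 = 0)) *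
        g (FF x.1 x.2 u v) ^ 3 = Sg K := by
  let Φ : (K × K) × (K × K) → (K × K) × (K × K) := fun x =>
    ((x.1.1 * u.1 + x.1.2 * u.2, x.1.1 * v.1 + x.1.2 * v.2),
      (x.2.1 * u.1 + x.2.2 * u.2, x.2.1 * v.1 + x.2.2 * v.2))
  have hinj : Function.Injective Φ := by
    rintro ⟨⟨a, b⟩, c, d⟩ ⟨⟨a', b'⟩, c', d'⟩ h
    simp only [Φ, Prod.mk.injEq] at h
    obtain ⟨⟨e1, e2⟩, e3, e4⟩ := h
    obtain rfl : a = a' := by
      apply mul_left_cancel₀ hd; linear_combination v.2 * e1 - u.2 * e2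
    obtain rfl : b = b' := by
      apply mul_left_cancel₀ hd; linear_combination u.1 * e2 - v.1 * e1
    obtain rfl : c = c' := by
      apply mul_left_cancel₀ hd; linear_combination v.2 * e3 - u.2 * e4
    obtain rfl : d = d' := by
      apply mul_left_cancel₀ hd; linear_combination u.1 * e4 - v.1 * e3
    rfl
  have hbij : Function.Bijective Φ := Finite.injective_iff_bijective.mp hinj
  have h1 := hbij.sum_comp (fun y => I (y.1.2 = y.2.1 ∧ y ≠ 0) * g (y.1.1, y.1.2, y.2.2) ^ 3)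
  have h2 : ∀ x : (K × K) × (K × K), ¬ (x.1 = 0 ∧ x.2 = 0) ↔ Φ x ≠ 0 := by
    intro x
    have h0 : Φ 0 = 0 := by simp [Φ]
    rw [← h0, hinj.ne_iff, ne_eq, Prod.ext_iff (x := x)]; rfl
  simp_rw [h2]
  refine Eq.trans h1 ?_
  rw [sum_I_inj (fun F : K × K × K => ((F.1, F.2.1), (F.2.1, F.2.2))) ?_ _ (fun F => F ≠ 0) ?_
    (fun y => g (y.1.1, y.1.2, y.2.2) ^ 3)]
  · rfl
  · rintro ⟨a, b, c⟩ ⟨a', b', c'⟩ h
    simp only [Prod.mk.injEq] at h ⊢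
    exact ⟨h.1.1, h.1.2, h.2.2⟩
  · rintro ⟨⟨a, b⟩, c, d⟩
    constructor
    · rintro ⟨e, h⟩
      obtain rfl : b = c := e
      refine ⟨(a, b, d), fun e => h ?_, rfl⟩
      simp only [Prod.mk_eq_zero] at e ⊢
      exact ⟨⟨e.1, e.2.1⟩, e.2⟩
    · rintro ⟨⟨x, y, z⟩, h, e⟩
      simp only [Prod.mk.injEq] at e
      obtain ⟨⟨rfl, rfl⟩, rfl, rfl⟩ := e
      refine ⟨rfl, fun e => h ?_⟩
      simp only [Prod.mk_eq_zero] at e ⊢
      exact ⟨e.1.1, e.2⟩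

lemma gl2_count : ∑ w : (K × K) × (K × K), I (w.1.1 * w.2.2 - w.1.2 * w.2.1 ≠ 0) =
    ((Fintype.card K : ℤ) ^ 2 - 1) * ((Fintype.card K : ℤ) ^ 2 - Fintype.card K) := by
  rw [Fintype.sum_prod_type]
  have : ∀ u : K × K, ∑ v : K × K, I (u.1 * v.2 - u.2 * v.1 ≠ 0) =
      I (u ≠ 0) * ((Fintype.card K : ℤ) ^ 2 - Fintype.card K) := by
    intro u
    by_cases hu : u = 0
    · simp [hu, I_neg]
    · rw [I_pos hu]
      have : ∀ v : K × K, u.1 * v.2 - u.2 * v.1 = (-u.2) * v.1 + u.1 * v.2 := fun v => by ring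
      simp_rw [this, ne_eq, I_not]
      rw [Finset.sum_sub_distrib, lin2]
      · simp [sq]
      · rintro ⟨a, b⟩; exact hu (Prod.ext b (neg_eq_zero.mp a))
  simp_rw [this]
  rw [← Finset.sum_mul, sum_I_ne]
  simp [sq]

lemma Sall_val : ∑ x : (K × K) × (K × K), Sc (thb x.1 x.2) = (Fintype.card K : ℤ) ^ 41 *
    (((Fintype.card K : ℤ) ^ 2 - 1) * ((Fintype.card K : ℤ) ^ 2 - Fintype.card K) * Sg K) := by
  simp_rw [Sc_val]
  rw [← Finset.mul_sum, Finset.sum_comm, ← gl2_count, Finset.sum_mul]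
  congr 1
  refine Finset.sum_congr rfl fun w _ => ?_
  rw [← Finset.mul_sum]
  exact I_mul_congr fun hd => inner_val w.1 w.2 hd

lemma Tot_form : ∃ r : ℤ, Tot K 44 = (Fintype.card K : ℤ) ^ 2068 * ((Fintype.card K : ℤ) ^ 41 *
    (((Fintype.card K : ℤ) ^ 2 - 1) * ((Fintype.card K : ℤ) ^ 2 - Fintype.card K) * Sg K) +
      (Fintype.card K : ℤ) ^ 44 * r) := by
  have h : ∑ x : (K × K) × (K × K), Tc 44 (thb x.1 x.2) ≡
      ∑ x : (K × K) × (K × K), Sc (thb x.1 x.2) [ZMOD (Fintype.card K : ℤ) ^ 44] :=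
    sum_modEq fun x => Tc_modEq 44 _
  obtain ⟨r, hr⟩ := h.symm.dvd
  refine ⟨r, ?_⟩
  rw [Tot_eq, ← Sall_val, ← hr]
  congr 1
  ring

theorem Tot_two (h2 : (2 : K) = 0) : ∃ r : ℤ, Tot K 44 = (Fintype.card K : ℤ) ^ 2112 * r := by
  obtain ⟨r, hr⟩ := Tot_form (K := K)
  obtain ⟨s, hs⟩ := Sg_two h2
  refine ⟨((Fintype.card K : ℤ) ^ 2 - 1) * ((Fintype.card K : ℤ) ^ 2 - Fintype.card K) * s + r, ?_⟩
  rw [hr, hs]
  generalize (Fintype.card K : ℤ) = q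
  rw [show 2112 = 2068 + 44 from rfl, pow_add]
  generalize q ^ 2068 = Q
  ring

theorem Tot_odd (h2 : (2 : K) ≠ 0) :
    ∃ r : ℤ, Tot K 44 = (Fintype.card K : ℤ) ^ 2111 * (-1 + Fintype.card K * r) := by
  obtain ⟨r, hr⟩ := Tot_form (K := K)
  obtain ⟨s, hs⟩ := Sg_odd h2
  rw [hr, hs]
  generalize (Fintype.card K : ℤ) = q
  refine ⟨r + (q ^ 2 - 1) * (q - 1) * s - (q ^ 2 - q - 1), ?_⟩
  rw [show 2111 = 2068 + 43 from rfl, pow_add]
  generalize q ^ 2068 = Q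
  ring

end Pool.Agent.H793Z.Hig
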